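import Mathlib
import Pool.Agent.Helper923.PNT

/-!
The number of primes in `[x, 2x)` is at least `x^(1-η)`.
-/

open Finset Filter Topology

namespace Pool.Agent.H170R2.PC

theorem dyadic_primes {η : ℝ} (hη : 0 < η) (hη1 : η ≤ 1) : ∀ᶠ x : ℝ in atTop, ∀ D : Finset ℕ,
    (∀ p : ℕ, p.Prime → x ≤ p → (p : ℝ) < 2 * x → p ∈ D) → x ^ (1 - η) ≤ (D.card : ℝ) := by
  have ht := Pool.Agent.Helper923.PNT.theta_div_tendsto
  have h1 : ∀ᶠ x : ℝ in atTop, Chebyshev.theta x ≤ 1.1 * x := by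
    filter_upwards [ht.eventually (gt_mem_nhds (show (1 : ℝ) < 1.1 by norm_num)),
      eventually_gt_atTop 0] with x hx hx0
    exact ((div_lt_iff₀ hx0).mp hx).le
  have h2 : ∀ᶠ x : ℝ in atTop, 0.9 * x ≤ Chebyshev.theta x := by
    filter_upwards [ht.eventually (lt_mem_nhds (show (0.9 : ℝ) < 1 by norm_num)),
      eventually_gt_atTop 0] with x hx hx0
    exact ((lt_div_iff₀ hx0).mp hx).le
  have h2' : ∀ᶠ x : ℝ in atTop, 0.9 * (2 * x) ≤ Chebyshev.theta (2 * x) :=
    (tendsto_id.const_mul_atTop (by norm_num : (0 : ℝ) < 2)).eventually h2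
  have h3 : ∀ᶠ x : ℝ in atTop, Real.log (2 * x) ≤ 0.1 * x ^ (η / 2) := by
    have hl := (isLittleO_log_rpow_atTop (show 0 < η / 4 by positivity)).bound
      (show (0 : ℝ) < 0.1 by norm_num)
    have hl2 : ∀ᶠ x : ℝ in atTop, ‖Real.log (2 * x)‖ ≤ 0.1 * ‖(2 * x) ^ (η / 4)‖ :=
      (tendsto_id.const_mul_atTop (by norm_num : (0 : ℝ) < 2)).eventually hl
    filter_upwards [hl2, eventually_ge_atTop (2 : ℝ)] with x hx hx2
    have e1 : Real.log (2 * x) ≤ 0.1 * (2 * x) ^ (η / 4) := by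
      refine (le_abs_self _).trans (hx.trans (le_of_eq ?_))
      rw [Real.norm_of_nonneg (by positivity)]
    refine e1.trans (mul_le_mul_of_nonneg_left ?_ (by norm_num))
    have e2 : (2 * x) ^ (η / 4) ≤ (x ^ (2 : ℝ)) ^ (η / 4) := by
      refine Real.rpow_le_rpow (by positivity) ?_ (by positivity)
      rw [Real.rpow_two]
      nlinarith
    refine e2.trans (le_of_eq ?_)
    rw [← Real.rpow_mul (by positivity)]
    congr 1
    ring
  filter_upwards [h1, h2', h3, eventually_ge_atTop (2 : ℝ)] with x h1 h2 h3 hx D hD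
  have hT : 0.7 * x ≤ Chebyshev.theta (2 * x) - Chebyshev.theta x := by linarith
  have hfl : ⌊x⌋₊ ≤ ⌊2 * x⌋₊ := Nat.floor_le_floor (by linarith)
  have hTe : Chebyshev.theta (2 * x) - Chebyshev.theta x
      = ∑ p ∈ (Ioc ⌊x⌋₊ ⌊2 * x⌋₊).filter Nat.Prime, Real.log p := by
    unfold Chebyshev.theta
    rw [sub_eq_iff_eq_add, sum_filter, sum_filter, sum_filter, add_comm,
      sum_Ioc_consecutive _ (Nat.zero_le _) hfl]
  have hcard : ((Ioc ⌊x⌋₊ ⌊2 * x⌋₊).filter Nat.Prime).card ≤ D.card + 1 := by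
    refine (card_le_card (t := insert ⌊2 * x⌋₊ D) ?_).trans (card_insert_le _ _)
    intro p hp
    rw [mem_filter, mem_Ioc] at hp
    rw [mem_insert]
    by_cases hp2 : (p : ℝ) < 2 * x
    · right
      refine hD p hp.2 ?_ hp2
      exact (Nat.lt_of_floor_lt hp.1.1).le
    · left
      refine le_antisymm hp.1.2 ?_
      have : (⌊2 * x⌋₊ : ℝ) ≤ p := (Nat.floor_le (by linarith)).trans (not_lt.mp hp2)
      exact_mod_cast this
  have hlog : ∀ p ∈ (Ioc ⌊x⌋₊ ⌊2 * x⌋₊).filter Nat.Prime, Real.log p ≤ Real.log (2 * x) := by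
    intro p hp
    rw [mem_filter, mem_Ioc] at hp
    refine Real.log_le_log (by exact_mod_cast hp.2.pos) ?_
    exact (Nat.le_floor_iff (by linarith)).mp hp.1.2
  have hT2 : Chebyshev.theta (2 * x) - Chebyshev.theta x ≤ (D.card + 1) * Real.log (2 * x) := by
    rw [hTe]
    refine (sum_le_card_nsmul _ _ _ hlog).trans ?_
    rw [nsmul_eq_mul]
    refine mul_le_mul_of_nonneg_right ?_ (Real.log_nonneg (by linarith))
    exact_mod_cast hcard
  have hx0 : (0 : ℝ) < x := by linarith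
  have hT3 : 0.7 * x ≤ (D.card + 1) * (0.1 * x ^ (η / 2)) :=
    (hT.trans hT2).trans (mul_le_mul_of_nonneg_left h3 (by positivity))
  have hpow : x = x ^ (1 - η / 2) * x ^ (η / 2) := by
    rw [← Real.rpow_add hx0]
    simp
  have hpos : 0 < x ^ (η / 2) := Real.rpow_pos_of_pos hx0 _
  have hT4 : 7 * x ^ (1 - η / 2) ≤ D.card + 1 := by
    have : 7 * x ^ (1 - η / 2) * x ^ (η / 2) ≤ (D.card + 1) * x ^ (η / 2) := by
      rw [mul_assoc, ← hpow]
      linarith
    exact le_of_mul_le_mul_right this hpos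
  have h5 : (1 : ℝ) ≤ x ^ (1 - η / 2) := Real.one_le_rpow (by linarith) (by linarith)
  have h6 : x ^ (1 - η) ≤ x ^ (1 - η / 2) := Real.rpow_le_rpow_of_exponent_le (by linarith) (by linarith)
  linarith

end Pool.Agent.H170R2.PC
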