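import Mathlib

/-!
The Katz–Tao sums-differences inequality with exponent `11/6`.
-/

open Finset

namespace Pool.Agent.H170R2.PC

lemma bad_fibre {α β : Type*} [DecidableEq α] [DecidableEq β] (V : Finset α) (f : α → β)
    (R : Finset β) (hf : ∀ v ∈ V, f v ∈ R) (n : ℕ) (hn : 0 < n) (hR : R.card ≤ n) :
    6 * (V.filter fun v => 6 * n * (V.filter fun u => f u = f v).card < V.card).card ≤ V.card := by
  set B := V.filter fun v => 6 * n * (V.filter fun u => f u = f v).card < V.card with hB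
  have h1 : B.card = ∑ y ∈ R, (B.filter fun v => f v = y).card :=
    card_eq_sum_card_fiberwise (fun v hv => hf v (mem_filter.mp hv).1)
  have h2 : ∀ y ∈ R, 6 * n * (B.filter fun v => f v = y).card ≤ V.card := by
    intro y _
    rcases (B.filter fun v => f v = y).eq_empty_or_nonempty with h | ⟨v, hv⟩
    · rw [h]; simp
    · rw [mem_filter, hB, mem_filter] at hv
      refine le_trans (Nat.mul_le_mul_left _ (card_le_card ?_)) hv.1.2.le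
      intro u hu
      rw [mem_filter, hB, mem_filter] at hu
      rw [mem_filter]
      exact ⟨hu.1.1, by rw [hu.2, hv.2]⟩
  have h3 : n * (6 * B.card) ≤ n * V.card := by
    calc n * (6 * B.card) = ∑ y ∈ R, 6 * n * (B.filter fun v => f v = y).card := by
          rw [← mul_sum, ← h1]; ring
      _ ≤ R.card • V.card := sum_le_card_nsmul _ _ _ h2
      _ ≤ n * V.card := by rw [smul_eq_mul]; exact Nat.mul_le_mul_right _ hR
  exact Nat.le_of_mul_le_mul_left h3 hn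

lemma sq_card_le_fiber' {ι β : Type*} [DecidableEq ι] [DecidableEq β] (P : Finset ι) (f : ι → β)
    (t : Finset β) (hf : ∀ x ∈ P, f x ∈ t) :
    P.card ^ 2 ≤ t.card * ((P ×ˢ P).filter fun x => f x.1 = f x.2).card := by
  have h1 : P.card = ∑ y ∈ t, (P.filter fun x => f x = y).card :=
    card_eq_sum_card_fiberwise hf
  have h2 : ((P ×ˢ P).filter fun x => f x.1 = f x.2).card
      = ∑ y ∈ t, (P.filter fun x => f x = y).card ^ 2 := by
    rw [card_eq_sum_card_fiberwise (f := fun x : ι × ι => f x.1) (t := t)]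
    · refine sum_congr rfl fun y hy => ?_
      rw [sq, ← card_product]
      congr 1
      ext ⟨u, v⟩
      simp only [mem_filter, mem_product]
      constructor
      · rintro ⟨⟨⟨hu, hv⟩, h⟩, h'⟩
        exact ⟨⟨hu, h'⟩, hv, by rw [← h, h']⟩
      · rintro ⟨⟨hu, h⟩, hv, h'⟩
        exact ⟨⟨⟨hu, hv⟩, by rw [h, h']⟩, h⟩
    · intro x hx
      have := mem_filter.mp hx
      exact hf _ (mem_product.mp this.1).1
  rw [h2, h1]
  exact sq_sum_le_card_mul_sum_sq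

/-- the chains `v₀ ~ v₁ ~ v₂ ~ v₃` -/
def chains {α β₁ β₂ β₃ : Type*} [DecidableEq β₁] [DecidableEq β₂] [DecidableEq β₃]
    (V : Finset α) (f₁ : α → β₁) (f₂ : α → β₂) (f₃ : α → β₃) : Finset ((α × α) × (α × α)) :=
  ((V ×ˢ V) ×ˢ (V ×ˢ V)).filter fun x => f₁ x.1.1 = f₁ x.1.2 ∧ f₂ x.1.2 = f₂ x.2.1 ∧
    f₃ x.2.1 = f₃ x.2.2

theorem chains_lower {α β₁ β₂ β₃ : Type*} [DecidableEq α] [DecidableEq β₁] [DecidableEq β₂]
    [DecidableEq β₃] (V : Finset α) (f₁ : α → β₁) (f₂ : α → β₂) (f₃ : α → β₃)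
    (R₁ : Finset β₁) (R₂ : Finset β₂) (R₃ : Finset β₃) (h₁ : ∀ v ∈ V, f₁ v ∈ R₁)
    (h₂ : ∀ v ∈ V, f₂ v ∈ R₂) (h₃ : ∀ v ∈ V, f₃ v ∈ R₃) {n₁ n₂ n₃ : ℕ} (p₁ : 0 < n₁)
    (p₃ : 0 < n₃) (c₁ : R₁.card ≤ n₁) (c₂ : R₂.card ≤ n₂) (c₃ : R₃.card ≤ n₃) :
    V.card ^ 4 ≤ 81 * (n₁ * n₂ * n₃) * (chains V f₁ f₂ f₃).card := by
  set d₁ : α → ℕ := fun v => (V.filter fun u => f₁ u = f₁ v).card with hd₁
  set d₃ : α → ℕ := fun v => (V.filter fun u => f₃ u = f₃ v).card with hd₃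
  set B₁ := V.filter fun v => 6 * n₁ * (V.filter fun u => f₁ u = f₁ v).card < V.card with hB₁
  set B₃ := V.filter fun v => 6 * n₃ * (V.filter fun u => f₃ u = f₃ v).card < V.card with hB₃
  have b₁ := bad_fibre V f₁ R₁ h₁ n₁ p₁ c₁
  have b₃ := bad_fibre V f₃ R₃ h₃ n₃ p₃ c₃
  rw [← hB₁] at b₁
  rw [← hB₃] at b₃
  set G := V \ (B₁ ∪ B₃) with hG
  have hGV : G ⊆ V := sdiff_subset
  have hGc : 2 * V.card ≤ 3 * G.card := by
    have e1 : V.card ≤ G.card + (B₁ ∪ B₃).card := by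
      have := card_sdiff_add_card V (B₁ ∪ B₃)
      rw [← hG] at this
      have h2 := card_le_card (subset_union_left (s₁ := V) (s₂ := B₁ ∪ B₃))
      omega
    have e2 := card_union_le B₁ B₃
    omega
  have hGd : ∀ v ∈ G, V.card ≤ 6 * n₁ * d₁ v ∧ V.card ≤ 6 * n₃ * d₃ v := by
    intro v hv
    rw [hG, mem_sdiff, mem_union, not_or] at hv
    constructor
    · by_contra h
      exact hv.2.1 (by rw [hB₁, mem_filter]; exact ⟨hv.1, not_le.mp h⟩)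
    · by_contra h
      exact hv.2.2 (by rw [hB₃, mem_filter]; exact ⟨hv.1, not_le.mp h⟩)
  -- pairs in the middle
  set M := (G ×ˢ G).filter fun x => f₂ x.1 = f₂ x.2 with hM
  have hMc : G.card ^ 2 ≤ n₂ * M.card :=
    (sq_card_le_fiber' G f₂ R₂ (fun v hv => h₂ v (hGV hv))).trans (Nat.mul_le_mul_right _ c₂)
  -- count the chains
  have hQ : ∑ x ∈ M, d₁ x.1 * d₃ x.2 ≤ (chains V f₁ f₂ f₃).card := by
    have e : ∑ x ∈ M, d₁ x.1 * d₃ x.2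
        = (M.sigma fun x => (V.filter fun u => f₁ u = f₁ x.1) ×ˢ
            (V.filter fun u => f₃ u = f₃ x.2)).card := by
      rw [card_sigma]
      refine sum_congr rfl fun x _ => ?_
      rw [card_product]
    rw [e]
    refine card_le_card_of_injOn (fun y => ((y.2.1, y.1.1), (y.1.2, y.2.2))) ?_ ?_
    · rintro ⟨⟨v₁, v₂⟩, ⟨v₀, v₃⟩⟩ hx
      simp only [coe_sigma, Set.mem_sigma_iff, mem_coe, hM, mem_filter, mem_product] at hx
      simp only [chains, mem_coe, mem_filter, mem_product]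
      exact ⟨⟨⟨hx.2.1.1, hGV hx.1.1.1⟩, hGV hx.1.1.2, hx.2.2.1⟩, hx.2.1.2, hx.1.2, hx.2.2.2.symm⟩
    · rintro ⟨⟨v₁, v₂⟩, ⟨v₀, v₃⟩⟩ _ ⟨⟨v₁', v₂'⟩, ⟨v₀', v₃'⟩⟩ _ h
      simp only [Prod.mk.injEq] at h
      obtain ⟨⟨rfl, rfl⟩, rfl, rfl⟩ := h
      rfl
  have hsum : M.card * V.card ^ 2 ≤ 36 * (n₁ * n₃) * (chains V f₁ f₂ f₃).card := by
    calc M.card * V.card ^ 2 = M.card • V.card ^ 2 := by rw [smul_eq_mul]
      _ ≤ ∑ x ∈ M, (6 * n₁ * d₁ x.1) * (6 * n₃ * d₃ x.2) := by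
          refine card_nsmul_le_sum _ _ _ fun x hx => ?_
          rw [hM, mem_filter, mem_product] at hx
          rw [sq]
          exact Nat.mul_le_mul (hGd x.1 hx.1.1).1 (hGd x.2 hx.1.2).2
      _ = 36 * (n₁ * n₃) * ∑ x ∈ M, d₁ x.1 * d₃ x.2 := by
          rw [mul_sum]
          exact sum_congr rfl fun x _ => by ring
      _ ≤ _ := Nat.mul_le_mul_left _ hQ
  have h4 : 4 * V.card ^ 2 ≤ 9 * G.card ^ 2 := by nlinarith
  have h5 : 4 * V.card ^ 4 ≤ 4 * (81 * (n₁ * n₂ * n₃) * (chains V f₁ f₂ f₃).card) := by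
    calc 4 * V.card ^ 4 = (4 * V.card ^ 2) * V.card ^ 2 := by ring
      _ ≤ (9 * G.card ^ 2) * V.card ^ 2 := Nat.mul_le_mul_right _ h4
      _ ≤ (9 * (n₂ * M.card)) * V.card ^ 2 :=
          Nat.mul_le_mul_right _ (Nat.mul_le_mul_left _ hMc)
      _ = 9 * n₂ * (M.card * V.card ^ 2) := by ring
      _ ≤ 9 * n₂ * (36 * (n₁ * n₃) * (chains V f₁ f₂ f₃).card) := Nat.mul_le_mul_left _ hsum
      _ = _ := by ring
  omega

/-- Katz–Tao: if `G ⊆ A × B` has sums in `C`, if `|A|, |B|, |C| ≤ n` and the differences of the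
pairs of `G` are distinct then `|G|^6 ≤ 81 n^11`. -/
theorem katz_tao {A B C : Finset ℤ} {G : Finset (ℤ × ℤ)} {n : ℕ} (hA : A.card ≤ n)
    (hB : B.card ≤ n) (hC : C.card ≤ n) (hG : G ⊆ A ×ˢ B) (hs : ∀ g ∈ G, g.1 + g.2 ∈ C)
    (hd : ∀ g ∈ G, ∀ g' ∈ G, g.1 - g.2 = g'.1 - g'.2 → g = g') :
    G.card ^ 6 ≤ 81 * n ^ 11 := by
  rcases Nat.eq_zero_or_pos n with h0 | h0
  · have : A.card = 0 := by omega
    have hA0 : A = ∅ := card_eq_zero.mp this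
    have hG0 : G = ∅ := by
      rw [hA0] at hG
      simpa using hG
    rw [hG0]
    simp
  set V : Finset (ℤ × ℤ × ℤ) := (A ×ˢ (B ×ˢ B)).filter fun v => (v.1, v.2.1) ∈ G ∧ (v.1, v.2.2) ∈ G
    with hV
  have hVm : ∀ v ∈ V, v.1 ∈ A ∧ v.2.1 ∈ B ∧ v.2.2 ∈ B ∧ (v.1, v.2.1) ∈ G ∧ (v.1, v.2.2) ∈ G := by
    intro v hv
    rw [hV, mem_filter, mem_product, mem_product] at hv
    exact ⟨hv.1.1, hv.1.2.1, hv.1.2.2, hv.2.1, hv.2.2⟩
  have hVc : G.card ^ 2 ≤ n * V.card := by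
    have h1 := sq_card_le_fiber' G (fun g => g.1) A (fun g hg => (mem_product.mp (hG hg)).1)
    refine h1.trans (Nat.mul_le_mul hA ?_)
    refine card_le_card_of_injOn (fun x => (x.1.1, x.1.2, x.2.2)) ?_ ?_
    · rintro ⟨⟨a, b⟩, ⟨a', b'⟩⟩ hx
      rw [mem_coe, mem_filter, mem_product] at hx
      obtain ⟨⟨hg, hg'⟩, heq⟩ := hx
      change (a, b) ∈ G at hg
      change (a', b') ∈ G at hg'
      have heq' : a = a' := heq
      subst heq'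
      have e1 := mem_product.mp (hG hg)
      have e2 := mem_product.mp (hG hg')
      simp only [mem_coe, hV, mem_filter, mem_product]
      exact ⟨⟨e1.1, e1.2, e2.2⟩, hg, hg'⟩
    · rintro ⟨⟨a, b⟩, ⟨a', b'⟩⟩ hx ⟨⟨c, d⟩, ⟨c', d'⟩⟩ hy h
      rw [mem_coe, mem_filter] at hx hy
      simp only [Prod.mk.injEq] at h hx hy ⊢
      obtain ⟨h1, h2, h3⟩ := h
      exact ⟨⟨h1, h2⟩, by rw [← hx.2, h1, hy.2], h3⟩
  -- the three maps
  have hch := chains_lower V (fun v => (v.1 + v.2.1, v.1 + v.2.2)) (fun v => v.2)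
    (fun v => (v.1 + v.2.1, v.2.2)) (C ×ˢ C) (B ×ˢ B) (C ×ˢ B)
    (fun v hv => mem_product.mpr ⟨hs _ (hVm v hv).2.2.2.1, hs _ (hVm v hv).2.2.2.2⟩)
    (fun v hv => mem_product.mpr ⟨(hVm v hv).2.1, (hVm v hv).2.2.1⟩)
    (fun v hv => mem_product.mpr ⟨hs _ (hVm v hv).2.2.2.1, (hVm v hv).2.2.1⟩)
    (n₁ := n * n) (n₂ := n * n) (n₃ := n * n) (by positivity) (by positivity)
    (by rw [card_product]; exact Nat.mul_le_mul hC hC)
    (by rw [card_product]; exact Nat.mul_le_mul hB hB)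
    (by rw [card_product]; exact Nat.mul_le_mul hC hB)
  set Q := chains V (fun v : ℤ × ℤ × ℤ => (v.1 + v.2.1, v.1 + v.2.2)) (fun v => v.2)
    (fun v => (v.1 + v.2.1, v.2.2)) with hQ
  have hQc : Q.card ≤ V.card * (n * n) := by
    have h1 : Q.card ≤ (V ×ˢ (A ×ˢ B)).card := by
      refine card_le_card_of_injOn (fun x => (x.1.1, x.2.1.1, x.2.2.2.1)) ?_ ?_
      · rintro ⟨⟨v₀, v₁⟩, ⟨v₂, v₃⟩⟩ hx
        simp only [hQ, chains, mem_coe, mem_filter, mem_product] at hx ⊢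
        exact ⟨hx.1.1.1, (hVm _ hx.1.2.1).1, (hVm _ hx.1.2.2).2.1⟩
      · rintro ⟨⟨⟨a₀, b₀, b₀'⟩, ⟨a₁, b₁, b₁'⟩⟩, ⟨⟨a₂, b₂, b₂'⟩, ⟨a₃, b₃, b₃'⟩⟩⟩ hx
          ⟨⟨⟨c₀, d₀, d₀'⟩, ⟨c₁, d₁, d₁'⟩⟩, ⟨⟨c₂, d₂, d₂'⟩, ⟨c₃, d₃, d₃'⟩⟩⟩ hy h
        simp only [hQ, chains, mem_coe, mem_filter, mem_product, Prod.mk.injEq] at hx hy h ⊢
        obtain ⟨⟨⟨-, -⟩, -, hx3⟩, ⟨x1, x2⟩, ⟨x3, x4⟩, x5, x6⟩ := hx
        obtain ⟨⟨⟨-, -⟩, -, hy3⟩, ⟨y1, y2⟩, ⟨y3, y4⟩, y5, y6⟩ := hy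
        obtain ⟨⟨h1, h2, h3⟩, h4, h5⟩ := h
        have g1 := (hVm _ hx3).2.2.2.2
        have g2 := (hVm _ hy3).2.2.2.2
        have hdd := hd _ g1 _ g2 (by dsimp only; linarith)
        simp only [Prod.mk.injEq] at hdd
        refine ⟨⟨⟨h1, h2, h3⟩, ?_, ?_, ?_⟩, ⟨?_, ?_, ?_⟩, ?_, ?_, ?_⟩ <;> linarith [hdd.1, hdd.2]
    refine h1.trans ?_
    rw [card_product, card_product]
    exact Nat.mul_le_mul_left _ (Nat.mul_le_mul hA hB)
  rcases Nat.eq_zero_or_pos V.card with hv0 | hv0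
  · rw [hv0, mul_zero] at hVc
    have : G.card = 0 := by
      by_contra h
      have : 0 < G.card ^ 2 := pow_pos (Nat.pos_of_ne_zero h) 2
      omega
    rw [this]
    simp
  have hV3 : V.card ^ 3 ≤ 81 * n ^ 8 := by
    have e1 : V.card ^ 3 * V.card ≤ 81 * n ^ 8 * V.card := by
      calc V.card ^ 3 * V.card = V.card ^ 4 := by ring
        _ ≤ 81 * (n * n * (n * n) * (n * n)) * Q.card := hch
        _ ≤ 81 * (n * n * (n * n) * (n * n)) * (V.card * (n * n)) := Nat.mul_le_mul_left _ hQc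
        _ = _ := by ring
    exact Nat.le_of_mul_le_mul_right e1 hv0
  calc G.card ^ 6 = (G.card ^ 2) ^ 3 := by ring
    _ ≤ (n * V.card) ^ 3 := Nat.pow_le_pow_left hVc 3
    _ = n ^ 3 * V.card ^ 3 := by ring
    _ ≤ n ^ 3 * (81 * n ^ 8) := Nat.mul_le_mul_left _ hV3
    _ = _ := by ring

end Pool.Agent.H170R2.PC
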