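import Pool.Agent.H170R2.PC.Main
import Pool.Agent.H170R2.PC.KT

/-!
Lower bound from windows (three term progressions) and the size of a residue class.
-/

open Finset

namespace Pool.Agent.H170R2.PC

lemma exists_residue {p : ℕ} (hp : 0 < p) (c : ZMod p) (t : ℕ) :
    ∃ x, t < x ∧ x ≤ t + p ∧ (x : ZMod p) = c := by
  have : NeZero p := ⟨by omega⟩
  refine ⟨t + 1 + (c - ((t + 1 : ℕ) : ZMod p)).val, by omega, ?_, ?_⟩
  · have := ZMod.val_lt (c - ((t + 1 : ℕ) : ZMod p))
    omega
  · rw [Nat.cast_add (t + 1), ZMod.natCast_zmod_val]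
    ring

lemma card_Cl_ge {a : (p : ℕ) → ZMod p} {N p m : ℕ} (hp : 0 < p) (hm : m * p ≤ N) :
    m ≤ (Cl N a p).card := by
  classical
  obtain ⟨x, hx0, hxp, hx⟩ := exists_residue hp (a p) 0
  have : (range m).card ≤ (Cl N a p).card := by
    refine card_le_card_of_injOn (fun i => x + i * p) ?_ ?_
    · intro i hi
      rw [mem_coe, mem_range] at hi
      rw [mem_coe, Cl, mem_filter, mem_Icc]
      have h1 : (i + 1) * p ≤ m * p := Nat.mul_le_mul_right _ hi
      have h2 : (i + 1) * p = i * p + p := by ring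
      refine ⟨⟨?_, ?_⟩, ?_⟩
      · change 1 ≤ x + i * p
        omega
      · change x + i * p ≤ N
        omega
      · push_cast
        rw [CharP.cast_eq_zero (ZMod p) p, mul_zero, add_zero, hx]
    · intro i _ j _ hij
      have : i * p = j * p := by
        have := hij
        dsimp only at this
        omega
      exact Nat.eq_of_mul_eq_mul_right hp this
  rwa [card_range] at this

theorem window {D : Finset ℕ} {a : (p : ℕ) → ZMod p} {Y N J : ℕ}
    (hD : ∀ p ∈ D, p.Prime ∧ Y ≤ p ∧ p ≤ 2 * Y) (hJ : 0 < J) (hN : J * (6 * Y) ≤ N) :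
    J ^ 11 * D.card ^ 6 ≤ 81 * (Cov D a N).card ^ 11 := by
  classical
  set S := Cov D a N with hS
  set s : ℕ → Finset ℕ := fun j => S.filter fun n => j * (6 * Y) < n ∧ n ≤ (j + 1) * (6 * Y) with hs
  -- the windows are disjoint
  have hdisj : ∑ j ∈ range J, (s j).card ≤ S.card := by
    rw [← card_biUnion]
    · refine card_le_card ?_
      intro n hn
      rw [mem_biUnion] at hn
      obtain ⟨j, _, hj⟩ := hn
      exact (mem_filter.mp hj).1
    · intro i _ j _ hij
      change Disjoint (s i) (s j)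
      rw [disjoint_left]
      intro n hn hn'
      have h1 := (mem_filter.mp hn).2
      have h2 := (mem_filter.mp hn').2
      rcases lt_or_gt_of_ne hij with h | h
      · have : (i + 1) * (6 * Y) ≤ j * (6 * Y) := Nat.mul_le_mul_right _ h
        omega
      · have : (j + 1) * (6 * Y) ≤ i * (6 * Y) := Nat.mul_le_mul_right _ h
        omega
  -- Katz–Tao in each window
  have hkt : ∀ j ∈ range J, D.card ^ 6 ≤ 81 * (s j).card ^ 11 := by
    intro j hj
    rw [mem_range] at hj
    have hex : ∀ p : ℕ, ∃ x : ℕ, p ∈ D → j * (6 * Y) < x ∧ x ≤ j * (6 * Y) + p ∧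
        (x : ZMod p) = a p := by
      intro p
      by_cases hp : p ∈ D
      · obtain ⟨x, hx⟩ := exists_residue (hD p hp).1.pos (a p) (j * (6 * Y))
        exact ⟨x, fun _ => hx⟩
      · exact ⟨0, fun h => absurd h hp⟩
    choose x hx using hex
    have hmem : ∀ p ∈ D, ∀ i ≤ 2, x p + i * p ∈ s j := by
      intro p hp i hi
      obtain ⟨h1, h2, h3⟩ := hx p hp
      have h4 := (hD p hp).2.2
      have h5 : (j + 1) * (6 * Y) = j * (6 * Y) + 6 * Y := by ring
      have h6 : (j + 1) * (6 * Y) ≤ J * (6 * Y) := Nat.mul_le_mul_right _ hj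
      have h7 : i * p ≤ 2 * p := Nat.mul_le_mul_right _ hi
      simp only [hs, hS, Cov, mem_filter, mem_Icc]
      refine ⟨⟨⟨by omega, by omega⟩, p, hp, ?_⟩, by omega, by omega⟩
      push_cast
      rw [CharP.cast_eq_zero (ZMod p) p, mul_zero, add_zero, h3]
    set A : Finset ℤ := (s j).map ⟨fun n : ℕ => (n : ℤ), Nat.cast_injective⟩ with hA
    set C : Finset ℤ := (s j).image fun n : ℕ => 2 * (n : ℤ) with hC
    set G : Finset (ℤ × ℤ) := D.image fun p : ℕ => ((x p : ℤ), (x p : ℤ) + 2 * p) with hG
    have hGc : G.card = D.card := by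
      rw [hG]
      refine card_image_of_injOn ?_
      intro p _ q _ h
      simp only [Prod.mk.injEq] at h
      omega
    have hAc : A.card ≤ (s j).card := by rw [hA, card_map]
    rw [← hGc]
    refine katz_tao (A := A) (B := A) (C := C) hAc hAc card_image_le ?_ ?_ ?_
    · intro g hg
      rw [hG, mem_image] at hg
      obtain ⟨p, hp, rfl⟩ := hg
      have h0 := hmem p hp 0 (by omega)
      have h2 := hmem p hp 2 le_rfl
      rw [mem_product]
      constructor
      · rw [hA, mem_map]
        exact ⟨x p, by simpa using h0, rfl⟩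
      · rw [hA, mem_map]
        exact ⟨x p + 2 * p, h2, by simp⟩
    · intro g hg
      rw [hG, mem_image] at hg
      obtain ⟨p, hp, rfl⟩ := hg
      have h1 := hmem p hp 1 (by omega)
      rw [hC, mem_image]
      refine ⟨x p + 1 * p, h1, ?_⟩
      push_cast
      ring
    · intro g hg g' hg' h
      rw [hG, mem_image] at hg hg'
      obtain ⟨p, hp, rfl⟩ := hg
      obtain ⟨q, hq, rfl⟩ := hg'
      have : p = q := by
        dsimp only at h
        omega
      rw [this]
  obtain ⟨j, hj, hmin⟩ := exists_min_image (range J) (fun j => (s j).card)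
    ⟨0, mem_range.mpr hJ⟩
  have h1 : J * (s j).card ≤ S.card := by
    refine le_trans ?_ hdisj
    have := card_nsmul_le_sum (range J) (fun j => (s j).card) (s j).card fun i hi => hmin i hi
    rwa [card_range, smul_eq_mul] at this
  calc J ^ 11 * D.card ^ 6 ≤ J ^ 11 * (81 * (s j).card ^ 11) := Nat.mul_le_mul_left _ (hkt j hj)
    _ = 81 * (J * (s j).card) ^ 11 := by ring
    _ ≤ 81 * S.card ^ 11 := Nat.mul_le_mul_left _ (Nat.pow_le_pow_left h1 11)

end Pool.Agent.H170R2.PC
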