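import Pool.Agent.H170R2.PC.Defs
import Pool.Agent.H170R2.PC.Window
import Pool.Agent.H170R2.PC.Primes

/-!
Asymptotics.
-/

open Finset Filter Topology

namespace Pool.Agent.H170R2.PC

open Classical in
/-- the primes of the dyadic range as a finite set -/
noncomputable def PD (α : ℝ) (N : ℕ) : Finset ℕ :=
  (range ⌈2 * (N : ℝ) ^ α⌉₊).filter fun p => InRange α N p

lemma mem_PD {α : ℝ} {N p : ℕ} : p ∈ PD α N ↔ InRange α N p := by
  classical
  rw [PD, mem_filter, mem_range]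
  constructor
  · exact fun h => h.2
  · exact fun h => ⟨Nat.lt_ceil.mpr h.2.2, h⟩

lemma coveredCount_eq (α : ℝ) (N : ℕ) (a : (p : ℕ) → ZMod p) :
    coveredCount α N a = (Cov (PD α N) a N).card := by
  classical
  rw [coveredCount, ← Set.ncard_coe_finset]
  congr 1
  ext n
  rw [Set.mem_ofPred_eq, mem_coe, Cov, mem_filter, mem_Icc]
  constructor
  · rintro ⟨h1, h2, p, hp, hn⟩
    exact ⟨⟨h1, h2⟩, p, mem_PD.mpr hp, hn⟩
  · rintro ⟨⟨h1, h2⟩, p, hp, hn⟩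
    exact ⟨h1, h2, p, mem_PD.mp hp, hn⟩

lemma ev_const (C : ℝ) {η : ℝ} (hη : 0 < η) : ∀ᶠ N : ℕ in atTop, C ≤ (N : ℝ) ^ η :=
  ((tendsto_rpow_atTop hη).comp tendsto_natCast_atTop_atTop).eventually_ge_atTop C

lemma ev_card {α η : ℝ} (hα : 0 < α) (hα1 : α ≤ 1) (hη : 0 < η) (hη1 : η ≤ 1) :
    ∀ᶠ N : ℕ in atTop, (N : ℝ) ^ (α - η) ≤ ((PD α N).card : ℝ) := by
  have h := ((tendsto_rpow_atTop hα).comp tendsto_natCast_atTop_atTop).eventually
    (dyadic_primes hη hη1)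
  filter_upwards [h, eventually_ge_atTop 1] with N hN hN1
  have h1 := hN (PD α N) fun p hp h1 h2 => mem_PD.mpr ⟨hp, h1, h2⟩
  refine le_trans ?_ h1
  simp only [Function.comp]
  rw [← Real.rpow_mul (Nat.cast_nonneg _)]
  refine Real.rpow_le_rpow_of_exponent_le (by exact_mod_cast hN1) ?_
  nlinarith

lemma ev_div {α η : ℝ} (hα : 0 < α) (hα1 : α < 1) (hη : 0 < η) (m : ℕ) (hm : 0 < m) :
    ∀ᶠ N : ℕ in atTop, (N : ℝ) ^ (1 - α - η) ≤ ((N / (m * ⌈(N : ℝ) ^ α⌉₊) - 1 : ℕ) : ℝ) := by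
  have hd : 0 < 1 - α := by linarith
  filter_upwards [ev_const 1 hα, ev_const (8 * m) hd, ev_const (4 * m) hη,
    eventually_ge_atTop 1] with N h1 h2 h3 hN1
  have hN0 : (0 : ℝ) < N := by exact_mod_cast hN1
  set Y := ⌈(N : ℝ) ^ α⌉₊ with hY
  have hYle : (Y : ℝ) ≤ 2 * (N : ℝ) ^ α := by
    have := Nat.ceil_lt_add_one (show 0 ≤ (N : ℝ) ^ α by positivity)
    linarith
  have hYpos : 0 < Y := Nat.ceil_pos.mpr (by positivity)
  have hYR : (0 : ℝ) < Y := by exact_mod_cast hYpos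
  have hmR : (0 : ℝ) < m := by exact_mod_cast hm
  have hNe : (N : ℝ) = (N : ℝ) ^ (1 - α) * (N : ℝ) ^ α := by
    rw [← Real.rpow_add hN0]
    simp
  have hdiv : (N : ℝ) ^ (1 - α) / (2 * m) ≤ (N : ℝ) / ((m * Y : ℕ) : ℝ) := by
    rw [div_le_div_iff₀ (by positivity) (by positivity)]
    push_cast
    calc (N : ℝ) ^ (1 - α) * (m * Y) ≤ (N : ℝ) ^ (1 - α) * (m * (2 * (N : ℝ) ^ α)) := by
          gcongr
      _ = ((N : ℝ) ^ (1 - α) * (N : ℝ) ^ α) * (2 * m) := by ring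
      _ = _ := by rw [← hNe]
  have hfl : (N : ℝ) / ((m * Y : ℕ) : ℝ) < ((N / (m * Y) : ℕ) : ℝ) + 1 := by
    rw [div_lt_iff₀ (by positivity)]
    have := Nat.lt_div_mul_add (a := N) (b := m * Y) (by positivity)
    have h : N < (N / (m * Y) + 1) * (m * Y) := by nlinarith
    exact_mod_cast h
  have h5 : (N : ℝ) ^ (1 - α) / (2 * m) - 2 ≤ ((N / (m * Y) - 1 : ℕ) : ℝ) := by
    have : ((N / (m * Y) : ℕ) : ℝ) - 1 ≤ ((N / (m * Y) - 1 : ℕ) : ℝ) := by
      rw [sub_le_iff_le_add]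
      have : N / (m * Y) ≤ (N / (m * Y) - 1) + 1 := by omega
      exact_mod_cast this
    linarith
  refine le_trans ?_ h5
  have h6 : (N : ℝ) ^ (1 - α) = (N : ℝ) ^ (1 - α - η) * (N : ℝ) ^ η := by
    rw [← Real.rpow_add hN0]
    congr 1
    ring
  have h7 : (2 : ℝ) ≤ (N : ℝ) ^ (1 - α) / (4 * m) := by
    rw [le_div_iff₀ (by positivity)]
    linarith
  have h8 : (N : ℝ) ^ (1 - α - η) ≤ (N : ℝ) ^ (1 - α) / (4 * m) := by
    rw [le_div_iff₀ (by positivity), h6]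
    exact mul_le_mul_of_nonneg_left h3 (by positivity)
  have h9 : (N : ℝ) ^ (1 - α) / (2 * m) = (N : ℝ) ^ (1 - α) / (4 * m) + (N : ℝ) ^ (1 - α) / (4 * m) := by
    field_simp
    ring
  linarith

lemma PD_prop {α : ℝ} {N : ℕ} : ∀ p ∈ PD α N, p.Prime ∧ ⌈(N : ℝ) ^ α⌉₊ ≤ p ∧
    p ≤ 2 * ⌈(N : ℝ) ^ α⌉₊ := by
  intro p hp
  obtain ⟨h1, h2, h3⟩ := mem_PD.mp hp
  refine ⟨h1, Nat.ceil_le.mpr h2, ?_⟩
  have : (p : ℝ) ≤ ((2 * ⌈(N : ℝ) ^ α⌉₊ : ℕ) : ℝ) := by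
    push_cast
    linarith [Nat.le_ceil ((N : ℝ) ^ α)]
  exact_mod_cast this

/-- the exponent from windows -/
theorem exp_window {α : ℝ} (hα : 0 < α) (hα1 : α < 1) : LowerExponent α (1 - 5 * α / 11) := by
  intro ε hε
  set η : ℝ := min (ε / 4) (1 / 2) with hη
  have hη0 : 0 < η := lt_min (by linarith) (by norm_num)
  have hη1 : η ≤ 1 / 2 := min_le_right _ _
  have hηε : 4 * η ≤ ε := by
    have := min_le_left (ε / 4) (1 / 2 : ℝ)
    linarith
  have hev : ∀ᶠ N : ℕ in atTop, ∀ a : (p : ℕ) → ZMod p,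
      (N : ℝ) ^ (1 - 5 * α / 11 - ε) ≤ (coveredCount α N a : ℝ) := by
    filter_upwards [ev_card hα hα1.le hη0 (by linarith), ev_div hα hα1 hη0 6 (by norm_num),
      ev_const 81 hη0, eventually_gt_atTop 1] with N h1 h2 h3 hN1 a
    have hN0 : (0 : ℝ) < N := by exact_mod_cast (by omega : 0 < N)
    have hN1' : (1 : ℝ) < N := by exact_mod_cast hN1
    rw [coveredCount_eq]
    set Y := ⌈(N : ℝ) ^ α⌉₊ with hY
    set J := N / (6 * Y) - 1 with hJ
    have hJ0 : 0 < J := by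
      have : (0 : ℝ) < (J : ℝ) := lt_of_lt_of_le (Real.rpow_pos_of_pos hN0 _) h2
      exact_mod_cast this
    have hJN : J * (6 * Y) ≤ N := by
      refine le_trans (Nat.mul_le_mul_right _ (Nat.sub_le _ _)) ?_
      exact Nat.div_mul_le_self _ _
    have hw := window (a := a) (PD_prop (α := α) (N := N)) hJ0 hJN
    set s := (Cov (PD α N) a N).card with hs
    have hw' : (J : ℝ) ^ 11 * ((PD α N).card : ℝ) ^ 6 ≤ 81 * (s : ℝ) ^ 11 := by exact_mod_cast hw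
    refine le_of_pow_le_pow_left₀ (n := 11) (by norm_num) (by positivity) ?_
    have e1 : ((N : ℝ) ^ (1 - α - η)) ^ 11 * ((N : ℝ) ^ (α - η)) ^ 6
        ≤ (N : ℝ) ^ η * (s : ℝ) ^ 11 := by
      refine le_trans ?_ (hw'.trans (mul_le_mul_of_nonneg_right h3 (by positivity)))
      gcongr
    have e2 : ((N : ℝ) ^ (1 - α - η)) ^ 11 * ((N : ℝ) ^ (α - η)) ^ 6
        = (N : ℝ) ^ η * (N : ℝ) ^ (11 - 5 * α - 18 * η) := by
      rw [← Real.rpow_mul_natCast hN0.le, ← Real.rpow_mul_natCast hN0.le, ← Real.rpow_add hN0,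
        ← Real.rpow_add hN0]
      congr 1
      push_cast
      ring
    rw [e2] at e1
    have e3 : (N : ℝ) ^ (11 - 5 * α - 18 * η) ≤ (s : ℝ) ^ 11 :=
      le_of_mul_le_mul_left e1 (Real.rpow_pos_of_pos hN0 _)
    refine le_trans ?_ e3
    rw [← Real.rpow_mul_natCast hN0.le]
    refine Real.rpow_le_rpow_of_exponent_le hN1'.le ?_
    push_cast
    linarith
  obtain ⟨N₀, hN₀⟩ := eventually_atTop.mp hev
  exact ⟨N₀, fun N hN a => hN₀ N hN a⟩

/-- the exponent from the bush inequality -/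
theorem exp_bush {α : ℝ} (hα : 1 / 2 < α) (hα1 : α < 1) {h : ℕ} (hh : 1 ≤ h) :
    LowerExponent α (min ((3 - 2 * α - (1 - α) / h) / 2) (2 - 2 * α + (2 * α - 1) / (2 * h))) := by
  intro ε hε
  have hα0 : 0 < α := by linarith
  have hhR : (1 : ℝ) ≤ h := by exact_mod_cast hh
  set m := min ((3 - 2 * α - (1 - α) / h) / 2) (2 - 2 * α + (2 * α - 1) / (2 * h)) with hm
  set η : ℝ := min (ε / 8) (1 / 2) with hη
  have hη0 : 0 < η := lt_min (by linarith) (by norm_num)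
  have hη1 : η ≤ 1 / 2 := min_le_right _ _
  have hηε : 8 * η ≤ ε := by
    have := min_le_left (ε / 8) (1 / 2 : ℝ)
    linarith
  have hd : 0 < 1 - α := by linarith
  have hdh : 0 < (1 - α) / h := by positivity
  -- constants
  set C₁ : ℝ := 2 ^ h * h.factorial * (2 * (2 * h + 1)) with hC₁
  set C₃ : ℝ := 4 ^ h * (2 * (2 * h + 1)) * (2 * h) with hC₃
  have hC₁0 : 0 < C₁ := by positivity
  have hev : ∀ᶠ N : ℕ in atTop, ∀ a : (p : ℕ) → ZMod p,
      (N : ℝ) ^ (m - ε) ≤ (coveredCount α N a : ℝ) := by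
    filter_upwards [ev_card hα0 hα1.le hη0 (by linarith), ev_div hα0 hα1 hη0 2 (by norm_num),
      ev_const 3 hη0, ev_const (C₁ ^ ((h : ℝ)⁻¹) + (2 * h + 1)) hη0, ev_const C₃ hη0,
      ev_const ((h * 2 ^ (2 * h - 1) : ℕ) + 1 : ℝ) hα0,
      eventually_gt_atTop 1] with N h1 h2 h3 h4 h5 h6 hN1 a
    have hN0 : (0 : ℝ) < N := by exact_mod_cast (by omega : 0 < N)
    have hN1' : (1 : ℝ) < N := by exact_mod_cast hN1
    rw [coveredCount_eq]
    set D := PD α N with hD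
    set Y := ⌈(N : ℝ) ^ α⌉₊ with hY
    have hYle : (N : ℝ) ^ α ≤ Y := Nat.le_ceil _
    have hY0 : 0 < Y := Nat.ceil_pos.mpr (by positivity)
    set c := N / (2 * Y) - 1 with hc
    have hc0 : (0 : ℝ) < (c : ℝ) := lt_of_lt_of_le (Real.rpow_pos_of_pos hN0 _) h2
    have hcpos : 0 < c := by exact_mod_cast hc0
    -- conditions for the finite inequality
    have hYbig : h * 2 ^ (2 * h - 1) < Y := by
      have : ((h * 2 ^ (2 * h - 1) : ℕ) : ℝ) < Y := by linarith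
      exact_mod_cast this
    have hNY : N < Y ^ 2 := by
      have e1 : (N : ℝ) < ((N : ℝ) ^ α) ^ 2 := by
        rw [← Real.rpow_mul_natCast hN0.le]
        nth_rewrite 1 [← Real.rpow_one (N : ℝ)]
        refine Real.rpow_lt_rpow_of_exponent_lt hN1' ?_
        push_cast
        linarith
      have e2 : (N : ℝ) < (Y : ℝ) ^ 2 := e1.trans_le (pow_le_pow_left₀ (by positivity) hYle 2)
      exact_mod_cast e2
    have hcl : ∀ p ∈ D, c + 1 ≤ (Cl N a p).card := by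
      intro p hp
      obtain ⟨q1, q2, q3⟩ := PD_prop p hp
      refine card_Cl_ge q1.pos ?_
      have e1 : (c + 1) * p ≤ (c + 1) * (2 * Y) := Nat.mul_le_mul_left _ q3
      have e2 : c + 1 ≤ N / (2 * Y) := by omega
      exact e1.trans ((Nat.mul_le_mul_right _ e2).trans (Nat.div_mul_le_self _ _))
    have hK : ((N / Y : ℕ) : ℝ) ≤ (N : ℝ) ^ (1 - α) := by
      refine Nat.cast_div_le.trans ?_
      rw [div_le_iff₀ (by exact_mod_cast hY0)]
      calc (N : ℝ) = (N : ℝ) ^ (1 - α) * (N : ℝ) ^ α := by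
            rw [← Real.rpow_add hN0]; simp
        _ ≤ _ := by gcongr
    have hX1 : (1 : ℝ) ≤ (N : ℝ) ^ (1 - α) := Real.one_le_rpow hN1'.le hd.le
    have hL : (2 * (h * (N / Y : ℕ)) + 1 : ℝ) ≤ (2 * h + 1) * (N : ℝ) ^ (1 - α) := by
      have : (2 * h : ℝ) * ((N / Y : ℕ) : ℝ) ≤ 2 * h * (N : ℝ) ^ (1 - α) := by gcongr
      linarith
    -- choice of b
    set b := ⌈(C₁ * (N : ℝ) ^ (1 - α)) ^ ((h : ℝ)⁻¹)⌉₊ + 2 * h with hb
    have hbge : (C₁ * (N : ℝ) ^ (1 - α)) ^ ((h : ℝ)⁻¹) ≤ (b : ℝ) := by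
      rw [hb]
      push_cast
      have := Nat.le_ceil ((C₁ * (N : ℝ) ^ (1 - α)) ^ ((h : ℝ)⁻¹))
      linarith [Nat.cast_nonneg (α := ℝ) h]
    have hb2 : 2 ^ h * h.factorial * (2 * (2 * (h * (N / Y)) + 1)) ≤ b ^ h := by
      have e1 : (2 ^ h * h.factorial * (2 * (2 * (h * (N / Y : ℕ)) + 1)) : ℝ)
          ≤ C₁ * (N : ℝ) ^ (1 - α) := by
        rw [hC₁]
        calc (2 ^ h * h.factorial * (2 * (2 * (h * (N / Y : ℕ)) + 1)) : ℝ)
            ≤ 2 ^ h * h.factorial * (2 * ((2 * h + 1) * (N : ℝ) ^ (1 - α))) := by gcongr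
          _ = _ := by ring
      have e2 : ((C₁ * (N : ℝ) ^ (1 - α)) ^ ((h : ℝ)⁻¹)) ^ h ≤ (b : ℝ) ^ h :=
        pow_le_pow_left₀ (by positivity) hbge h
      rw [Real.rpow_inv_natCast_pow (by positivity) (by omega)] at e2
      exact_mod_cast e1.trans e2
    have hble : (b : ℝ) ≤ (N : ℝ) ^ ((1 - α) / h + η) := by
      have e1 := Nat.ceil_lt_add_one
        (show 0 ≤ (C₁ * (N : ℝ) ^ (1 - α)) ^ ((h : ℝ)⁻¹) by positivity)
      have e2 : (C₁ * (N : ℝ) ^ (1 - α)) ^ ((h : ℝ)⁻¹)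
          = C₁ ^ ((h : ℝ)⁻¹) * (N : ℝ) ^ ((1 - α) / h) := by
        rw [Real.mul_rpow hC₁0.le (by positivity), ← Real.rpow_mul hN0.le, div_eq_mul_inv]
      have e3 : (1 : ℝ) ≤ (N : ℝ) ^ ((1 - α) / h) := Real.one_le_rpow hN1'.le hdh.le
      have e4 : (b : ℝ) ≤ (C₁ ^ ((h : ℝ)⁻¹) + (2 * h + 1)) * (N : ℝ) ^ ((1 - α) / h) := by
        rw [hb]
        push_cast
        rw [add_mul, ← e2]
        nlinarith
      refine e4.trans ?_
      rw [add_comm ((1 - α) / (h : ℝ)), Real.rpow_add hN0]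
      exact mul_le_mul_of_nonneg_right h4 (by positivity)
    have hmainN := bush (a := a) (h := h) (b := b) (PD_prop (α := α) (N := N)) hh hYbig hNY hcl
      (by omega) hb2
    set s := (Cov D a N).card with hs
    by_contra hcon
    rw [not_le] at hcon
    have hsm : (s : ℝ) < (N : ℝ) ^ (m - 8 * η) :=
      hcon.trans_le (Real.rpow_le_rpow_of_exponent_le hN1'.le (by linarith))
    have hm1 : m ≤ (3 - 2 * α - (1 - α) / h) / 2 := min_le_left _ _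
    have hm2 : m ≤ 2 - 2 * α + (2 * α - 1) / (2 * h) := min_le_right _ _
    have h3s : 3 * (s : ℝ) ≤ (N : ℝ) ^ (m - 7 * η) := by
      calc 3 * (s : ℝ) ≤ (N : ℝ) ^ η * (N : ℝ) ^ (m - 8 * η) := by gcongr
        _ = _ := by rw [← Real.rpow_add hN0]; congr 1; ring
    rcases hmainN with hA | hA | hA
    · have hA' : (c : ℝ) * D.card ≤ 3 * s := by exact_mod_cast hA
      have e1 : (N : ℝ) ^ (1 - α - η) * (N : ℝ) ^ (α - η) ≤ (N : ℝ) ^ (m - 7 * η) := by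
        refine le_trans ?_ (hA'.trans h3s)
        gcongr
      rw [← Real.rpow_add hN0, Real.rpow_le_rpow_left_iff hN1'] at e1
      linarith
    · have hA' : (c : ℝ) ^ 3 * D.card ≤ 3 * b * s ^ 2 := by exact_mod_cast hA
      have e0 : 3 * (b : ℝ) * s ^ 2 ≤ (N : ℝ) ^ η * (N : ℝ) ^ ((1 - α) / h + η)
          * ((N : ℝ) ^ (m - 8 * η)) ^ 2 := by
        gcongr
      have e1 : ((N : ℝ) ^ (1 - α - η)) ^ 3 * (N : ℝ) ^ (α - η)
          ≤ (N : ℝ) ^ η * (N : ℝ) ^ ((1 - α) / h + η) * ((N : ℝ) ^ (m - 8 * η)) ^ 2 := by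
        refine le_trans ?_ (hA'.trans e0)
        gcongr
      rw [← Real.rpow_mul_natCast hN0.le, ← Real.rpow_mul_natCast hN0.le, ← Real.rpow_add hN0,
        ← Real.rpow_add hN0, ← Real.rpow_add hN0, Real.rpow_le_rpow_left_iff hN1'] at e1
      push_cast at e1
      linarith
    · have hA' : (c : ℝ) ^ (4 * h) * D.card ≤ (3 * s) ^ (2 * h) *
          (4 ^ h * (2 * (2 * (h * (N / Y : ℕ)) + 1)) * (2 * h - 1 : ℕ)) := by exact_mod_cast hA
      have e0 : (4 ^ h * (2 * (2 * (h * (N / Y : ℕ)) + 1)) * (2 * h - 1 : ℕ) : ℝ)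
          ≤ (N : ℝ) ^ η * (N : ℝ) ^ (1 - α) := by
        have e2 : ((2 * h - 1 : ℕ) : ℝ) ≤ 2 * h := by
          have : 2 * h - 1 ≤ 2 * h := Nat.sub_le _ _
          exact_mod_cast this
        calc (4 ^ h * (2 * (2 * (h * (N / Y : ℕ)) + 1)) * (2 * h - 1 : ℕ) : ℝ)
            ≤ 4 ^ h * (2 * ((2 * h + 1) * (N : ℝ) ^ (1 - α))) * (2 * h) := by gcongr
          _ = C₃ * (N : ℝ) ^ (1 - α) := by rw [hC₃]; ring
          _ ≤ _ := by gcongr
      have e1 : ((N : ℝ) ^ (1 - α - η)) ^ (4 * h) * (N : ℝ) ^ (α - η)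
          ≤ ((N : ℝ) ^ (m - 7 * η)) ^ (2 * h) * ((N : ℝ) ^ η * (N : ℝ) ^ (1 - α)) := by
        have l1 : ((N : ℝ) ^ (1 - α - η)) ^ (4 * h) * (N : ℝ) ^ (α - η)
            ≤ (c : ℝ) ^ (4 * h) * D.card := by gcongr
        have l2 : (3 * (s : ℝ)) ^ (2 * h) *
            (4 ^ h * (2 * (2 * (h * (N / Y : ℕ)) + 1)) * (2 * h - 1 : ℕ))
            ≤ ((N : ℝ) ^ (m - 7 * η)) ^ (2 * h) * ((N : ℝ) ^ η * (N : ℝ) ^ (1 - α)) := by
          gcongr
        exact l1.trans (hA'.trans l2)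
      rw [← Real.rpow_mul_natCast hN0.le, ← Real.rpow_mul_natCast hN0.le, ← Real.rpow_add hN0,
        ← Real.rpow_add hN0, ← Real.rpow_add hN0, Real.rpow_le_rpow_left_iff hN1'] at e1
      push_cast at e1
      have e5 : m * (2 * h) ≤ (2 - 2 * α) * (2 * h) + (2 * α - 1) := by
        have : (2 - 2 * α + (2 * α - 1) / (2 * h)) * (2 * h) = (2 - 2 * α) * (2 * h) + (2 * α - 1) := by
          field_simp
        rw [← this]
        exact mul_le_mul_of_nonneg_right hm2 (by positivity)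
      have e6 : η ≤ h * η := le_mul_of_one_le_left hη0.le hhR
      clear_value m η c b s D Y C₁ C₃
      linarith
  obtain ⟨N₀, hN₀⟩ := eventually_atTop.mp hev
  exact ⟨N₀, fun N hN a => hN₀ N hN a⟩

end Pool.Agent.H170R2.PC
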