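import Pool.Agent.H170R2.PC.Energy

/-!
The energy inequality at one point and the double counting.
-/

open Finset

namespace Pool.Agent.H170R2.PC

open Classical in
/-- the primes of `D` whose chosen class contains `n` -/
noncomputable def Dn (D : Finset ℕ) (a : (p : ℕ) → ZMod p) (n : ℕ) : Finset ℕ :=
  D.filter fun p => (n : ZMod p) = a p

/-- the chosen classes modulo `p` and modulo `q` have a common point in `[1, N]` -/
def Meets (N : ℕ) (a : (p : ℕ) → ZMod p) (p q : ℕ) : Prop :=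
  ∃ z ∈ Icc 1 N, (z : ZMod p) = a p ∧ (z : ZMod q) = a q

open Classical in
/-- the primes through `n` whose class meets the class of `q` -/
noncomputable def An (D : Finset ℕ) (a : (p : ℕ) → ZMod p) (N n q : ℕ) : Finset ℕ :=
  (Dn D a n).filter fun p => Meets N a p q

open Classical in
/-- pairs of distinct `h`-sets of primes through `n` whose numerator is divisible by `q` -/
noncomputable def Nt (D : Finset ℕ) (a : (p : ℕ) → ZMod p) (h n q : ℕ) :
    Finset (Finset ℕ × Finset ℕ) :=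
  ((powersetCard h (Dn D a n)) ×ˢ (powersetCard h (Dn D a n))).filter
    fun x => x.1 ≠ x.2 ∧ (q : ℤ) ∣ num x.1 x.2

/-- pairs with the same value -/
lemma sq_card_le_fiber {ι : Type*} [DecidableEq ι] (P : Finset ι) (f : ι → ℤ) (t : Finset ℤ)
    (hf : ∀ x ∈ P, f x ∈ t) :
    P.card ^ 2 ≤ t.card * ((P ×ˢ P).filter fun x => f x.1 = f x.2).card := by
  have h1 : P.card = ∑ y ∈ t, (P.filter fun x => f x = y).card :=
    card_eq_sum_card_fiberwise hf
  have h2 : ((P ×ˢ P).filter fun x => f x.1 = f x.2).card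
      = ∑ y ∈ t, (P.filter fun x => f x = y).card ^ 2 := by
    rw [card_eq_sum_card_fiberwise (f := fun x : ι × ι => f x.1) (t := t)]
    · refine sum_congr rfl fun y hy => ?_
      rw [sq, ← card_product]
      congr 1
      ext ⟨u, v⟩
      simp only [mem_filter, mem_product]
      constructor
      · rintro ⟨⟨⟨hu, hv⟩, h⟩, h'⟩
        exact ⟨⟨hu, h'⟩, hv, by rw [← h, h']⟩
      · rintro ⟨⟨hu, h⟩, hv, h'⟩
        exact ⟨⟨⟨hu, hv⟩, by rw [h, h']⟩, h⟩
    · intro x hx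
      have := mem_filter.mp hx
      exact hf _ (mem_product.mp this.1).1
  rw [h2, h1]
  exact sq_sum_le_card_mul_sum_sq

theorem energy_point {D : Finset ℕ} {a : (p : ℕ) → ZMod p} {Y N h n q : ℕ}
    (hD : ∀ p ∈ D, p.Prime ∧ Y ≤ p ∧ p ≤ 2 * Y) (hY : 0 < Y)
    (hn : n ∈ Icc 1 N) (hq : q ∈ D) (hqn : q ∉ Dn D a n) :
    ((An D a N n q).card.choose h) ^ 2
      ≤ (2 * (h * (N / Y)) + 1) * ((An D a N n q).card.choose h + (Nt D a h n q).card) := by
  classical
  set A := An D a N n q with hA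
  have hmem : ∀ p ∈ A, p ∈ D ∧ (n : ZMod p) = a p ∧
      ∃ z ∈ Icc 1 N, (z : ZMod p) = a p ∧ (z : ZMod q) = a q := by
    intro p hp
    rw [hA, An, mem_filter, Dn, mem_filter] at hp
    exact ⟨hp.1.1, hp.1.2, hp.2⟩
  have hex : ∀ p : ℕ, ∃ z : ℕ, p ∈ A → z ∈ Icc 1 N ∧ (z : ZMod p) = a p ∧ (z : ZMod q) = a q := by
    intro p
    by_cases hp : p ∈ A
    · obtain ⟨z, hz⟩ := (hmem p hp).2.2
      exact ⟨z, fun _ => hz⟩
    · exact ⟨0, fun h => absurd h hp⟩
  choose z hz using hex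
  have hdvd : ∀ p ∈ A, (p : ℤ) ∣ (z p : ℤ) - n := by
    intro p hp
    rw [← ZMod.intCast_zmod_eq_zero_iff_dvd]
    push_cast
    rw [(hz p hp).2.1, (hmem p hp).2.1, sub_self]
  let k : ℕ → ℤ := fun p => ((z p : ℤ) - n) / p
  have hk : ∀ p ∈ A, k p * p = (z p : ℤ) - n := fun p hp => Int.ediv_mul_cancel (hdvd p hp)
  have hkb : ∀ p ∈ A, |k p| ≤ ((N / Y : ℕ) : ℤ) := by
    intro p hp
    have h1 := hk p hp
    have h2 := mem_Icc.mp (hz p hp).1
    have h3 := mem_Icc.mp hn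
    have h4 : Y ≤ p := (hD p (hmem p hp).1).2.1
    have h5 : |k p| * (p : ℤ) ≤ N := by
      have : |k p| * (p : ℤ) = |(z p : ℤ) - n| := by
        rw [← h1, abs_mul, Nat.abs_cast]
      rw [this, abs_le]
      constructor <;> omega
    have h6 : |k p| * (Y : ℤ) ≤ N := by
      refine le_trans ?_ h5
      exact mul_le_mul_of_nonneg_left (by exact_mod_cast h4) (abs_nonneg _)
    rw [Int.natCast_div]
    exact Int.le_ediv_of_mul_le (by exact_mod_cast hY) h6
  set K := N / Y with hK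
  -- the sums
  set P := powersetCard h A with hP
  have hPc : P.card = A.card.choose h := card_powersetCard h A
  have hsum : ∀ T ∈ P, (∑ p ∈ T, k p) ∈ Icc (-((h * K : ℕ) : ℤ)) ((h * K : ℕ) : ℤ) := by
    intro T hT
    rw [hP, mem_powersetCard] at hT
    have : |∑ p ∈ T, k p| ≤ ((h * K : ℕ) : ℤ) := by
      refine (abs_sum_le_sum_abs _ _).trans ?_
      refine (sum_le_card_nsmul T _ _ fun p hp => hkb p (hT.1 hp)).trans ?_
      rw [hT.2, nsmul_eq_mul]
      push_cast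
      exact le_rfl
    rw [mem_Icc]
    exact abs_le.mp this
  have hcs := sq_card_le_fiber P (fun T => ∑ p ∈ T, k p) _ hsum
  rw [hPc] at hcs
  have hcard : (Icc (-((h * K : ℕ) : ℤ)) ((h * K : ℕ) : ℤ)).card = 2 * (h * K) + 1 := by
    rw [Int.card_Icc]
    omega
  rw [hcard] at hcs
  refine hcs.trans (Nat.mul_le_mul_left _ ?_)
  -- split equal and different sets
  have hAD : A ⊆ Dn D a n := filter_subset _ _
  have hsplit : ((P ×ˢ P).filter fun x => (∑ p ∈ x.1, k p) = ∑ p ∈ x.2, k p)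
      ⊆ (P.image fun T => (T, T)) ∪ Nt D a h n q := by
    intro x hx
    rw [mem_filter, mem_product] at hx
    by_cases hxe : x.1 = x.2
    · refine mem_union_left _ (mem_image.mpr ⟨x.1, hx.1.1, ?_⟩)
      exact Prod.ext rfl hxe
    · refine mem_union_right _ ?_
      rw [Nt, mem_filter, mem_product]
      have h1 := mem_powersetCard.mp hx.1.1
      have h2 := mem_powersetCard.mp hx.1.2
      refine ⟨⟨mem_powersetCard.mpr ⟨h1.1.trans hAD, h1.2⟩,
        mem_powersetCard.mpr ⟨h2.1.trans hAD, h2.2⟩⟩, hxe, ?_⟩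
      have hc : a q - (n : ZMod q) ≠ 0 := by
        intro h0
        apply hqn
        rw [Dn, mem_filter]
        exact ⟨hq, (sub_eq_zero.mp h0).symm⟩
      refine dvd_num (hD q hq).1 hc (fun p hp => ?_) hx.2
      have hpA : p ∈ A := by
        rcases mem_union.mp hp with h' | h'
        · exact h1.1 h'
        · exact h2.1 h'
      have e1 := congrArg (fun w : ℤ => (w : ZMod q)) (hk p hpA)
      push_cast at e1
      rw [e1, (hz p hpA).2.2]
  refine (card_le_card hsplit).trans ((card_union_le _ _).trans ?_)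
  refine Nat.add_le_add_right ?_ _
  rw [← hPc]
  exact card_image_le

lemma sum_Nt_le {D : Finset ℕ} {a : (p : ℕ) → ZMod p} {Y h n : ℕ}
    (hD : ∀ p ∈ D, p.Prime ∧ Y ≤ p ∧ p ≤ 2 * Y) (hh : 1 ≤ h)
    (hY : h * 2 ^ (2 * h - 1) < Y) :
    ∑ q ∈ D, (Nt D a h n q).card ≤ (2 * h - 1) * ((Dn D a n).card.choose h) ^ 2 := by
  classical
  set R := powersetCard h (Dn D a n) with hR
  have hRc : R.card = (Dn D a n).card.choose h := card_powersetCard _ _
  have hsub : Dn D a n ⊆ D := filter_subset _ _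
  have h1 : ∀ q ∈ D, (Nt D a h n q).card
      = ∑ x ∈ (R ×ˢ R).filter fun x => x.1 ≠ x.2, if (q : ℤ) ∣ num x.1 x.2 then 1 else 0 := by
    intro q _
    rw [Nt, ← filter_filter, card_filter]
  rw [sum_congr rfl h1, sum_comm]
  have h2 : ∀ x ∈ (R ×ˢ R).filter fun x => x.1 ≠ x.2,
      (∑ q ∈ D, if (q : ℤ) ∣ num x.1 x.2 then 1 else 0) ≤ 2 * h - 1 := by
    intro x hx
    rw [mem_filter, mem_product] at hx
    rw [← card_filter]
    refine card_dvd_num_le hD hh hY ?_ ?_ hx.2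
    · have := mem_powersetCard.mp hx.1.1
      exact mem_powersetCard.mpr ⟨this.1.trans hsub, this.2⟩
    · have := mem_powersetCard.mp hx.1.2
      exact mem_powersetCard.mpr ⟨this.1.trans hsub, this.2⟩
  refine (sum_le_card_nsmul _ _ _ h2).trans ?_
  rw [smul_eq_mul, mul_comm]
  refine Nat.mul_le_mul_left _ ?_
  refine (card_filter_le _ _).trans ?_
  rw [card_product, hRc, sq]

/-- the energy inequality, summed over the primes `q` -/
theorem energy_sum {D : Finset ℕ} {a : (p : ℕ) → ZMod p} {Y N h n b : ℕ}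
    (hD : ∀ p ∈ D, p.Prime ∧ Y ≤ p ∧ p ≤ 2 * Y) (hh : 1 ≤ h)
    (hY : h * 2 ^ (2 * h - 1) < Y) (hn : n ∈ Icc 1 N) (hb : 2 * h ≤ b)
    (hb2 : 2 ^ h * h.factorial * (2 * (2 * (h * (N / Y)) + 1)) ≤ b ^ h) :
    (∑ q ∈ (D \ Dn D a n).filter fun q => b ≤ (An D a N n q).card, (An D a N n q).card) ^ (2 * h)
      ≤ D.card ^ (2 * h - 1) * (4 ^ h * (2 * (2 * (h * (N / Y)) + 1)) * (2 * h - 1)
        * (Dn D a n).card ^ (2 * h)) := by
  classical
  set L := 2 * (h * (N / Y)) + 1 with hL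
  set w : ℕ → ℕ := fun q => (An D a N n q).card with hw
  set Q := (D \ Dn D a n).filter fun q => b ≤ w q with hQ
  have hY0 : 0 < Y := by omega
  have hfac : 0 < h.factorial := Nat.factorial_pos h
  have hpt : ∀ q ∈ Q, w q ^ (2 * h) ≤ 4 ^ h * h.factorial ^ 2 * (2 * L) * (Nt D a h n q).card := by
    intro q hq
    rw [hQ, mem_filter, mem_sdiff] at hq
    have he := energy_point (h := h) (N := N) hD hY0 hn hq.1.1 hq.1.2
    rw [← hL] at he
    set m := (An D a N n q).card.choose h with hm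
    have h1 : w q ^ h ≤ 2 ^ h * (h.factorial * m) := by
      have e1 : w q ≤ 2 * (w q + 1 - h) := by omega
      calc w q ^ h ≤ (2 * (w q + 1 - h)) ^ h := Nat.pow_le_pow_left e1 h
        _ = 2 ^ h * (w q + 1 - h) ^ h := mul_pow _ _ _
        _ ≤ 2 ^ h * (w q).descFactorial h :=
            Nat.mul_le_mul_left _ (Nat.pow_sub_le_descFactorial _ _)
        _ = _ := by rw [Nat.descFactorial_eq_factorial_mul_choose]
    have h2 : 2 * L ≤ m := by
      have e2 : 2 ^ h * h.factorial * (2 * L) ≤ 2 ^ h * h.factorial * m := by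
        refine hb2.trans ((Nat.pow_le_pow_left hq.2 h).trans ?_)
        rw [mul_assoc]
        exact h1
      exact Nat.le_of_mul_le_mul_left e2 (by positivity)
    have h3 : m ^ 2 ≤ 2 * L * (Nt D a h n q).card := by nlinarith
    calc w q ^ (2 * h) = (w q ^ h) ^ 2 := by rw [← pow_mul, mul_comm]
      _ ≤ (2 ^ h * (h.factorial * m)) ^ 2 := Nat.pow_le_pow_left h1 2
      _ = (2 ^ h) ^ 2 * h.factorial ^ 2 * m ^ 2 := by ring
      _ ≤ (2 ^ h) ^ 2 * h.factorial ^ 2 * (2 * L * (Nt D a h n q).card) :=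
          Nat.mul_le_mul_left _ h3
      _ = _ := by
        have : (2 ^ h) ^ 2 = 4 ^ h := by rw [← pow_mul, mul_comm, pow_mul]; norm_num
        rw [this]; ring
  have hsumN : ∑ q ∈ Q, (Nt D a h n q).card ≤ (2 * h - 1) * ((Dn D a n).card.choose h) ^ 2 := by
    refine le_trans ?_ (sum_Nt_le (a := a) (n := n) hD hh hY)
    refine sum_le_sum_of_subset ?_
    exact (filter_subset _ _).trans sdiff_subset
  have hch : h.factorial * (Dn D a n).card.choose h ≤ (Dn D a n).card ^ h := by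
    rw [← Nat.descFactorial_eq_factorial_mul_choose]
    exact Nat.descFactorial_le_pow _ _
  have hpm : (∑ q ∈ Q, w q) ^ (2 * h) ≤ Q.card ^ (2 * h - 1) * ∑ q ∈ Q, w q ^ (2 * h) := by
    have := pow_sum_le_card_mul_sum_pow (s := Q) (f := w) (fun i _ => Nat.zero_le _) (2 * h - 1)
    rwa [Nat.sub_add_cancel (by omega)] at this
  refine hpm.trans (Nat.mul_le_mul (Nat.pow_le_pow_left ?_ _) ?_)
  · exact card_le_card ((filter_subset _ _).trans sdiff_subset)
  · refine (sum_le_sum hpt).trans ?_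
    rw [← mul_sum]
    calc 4 ^ h * h.factorial ^ 2 * (2 * L) * ∑ q ∈ Q, (Nt D a h n q).card
        ≤ 4 ^ h * h.factorial ^ 2 * (2 * L) * ((2 * h - 1) * ((Dn D a n).card.choose h) ^ 2) :=
          Nat.mul_le_mul_left _ hsumN
      _ = 4 ^ h * (2 * L) * (2 * h - 1) * (h.factorial * (Dn D a n).card.choose h) ^ 2 := by ring
      _ ≤ 4 ^ h * (2 * L) * (2 * h - 1) * ((Dn D a n).card ^ h) ^ 2 :=
          Nat.mul_le_mul_left _ (Nat.pow_le_pow_left hch 2)
      _ = _ := by rw [← pow_mul, mul_comm h 2]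

lemma class_unique {p q Y N z z' : ℕ} (hp : p.Prime) (hq : q.Prime) (hpq : p ≠ q)
    (hYp : Y ≤ p) (hYq : Y ≤ q) (hN : N < Y ^ 2) (hz : z ∈ Icc 1 N) (hz' : z' ∈ Icc 1 N)
    (h1 : (z : ZMod p) = z') (h2 : (z : ZMod q) = z') : z = z' := by
  have e1 := (ZMod.natCast_eq_natCast_iff z z' p).mp h1
  have e2 := (ZMod.natCast_eq_natCast_iff z z' q).mp h2
  have hc : Nat.Coprime p q := (Nat.coprime_primes hp hq).mpr hpq
  have e3 := (Nat.modEq_and_modEq_iff_modEq_mul hc).mp ⟨e1, e2⟩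
  have hlt : N < p * q := by
    refine hN.trans_le ?_
    rw [sq]
    exact Nat.mul_le_mul hYp hYq
  exact e3.eq_of_lt_of_lt (lt_of_le_of_lt (mem_Icc.mp hz).2 hlt)
    (lt_of_le_of_lt (mem_Icc.mp hz').2 hlt)

open Classical in
/-- the chosen class modulo `p` inside `[1, N]` -/
noncomputable def Cl (N : ℕ) (a : (p : ℕ) → ZMod p) (p : ℕ) : Finset ℕ :=
  (Icc 1 N).filter fun n => (n : ZMod p) = a p

theorem double_count {D : Finset ℕ} {a : (p : ℕ) → ZMod p} {Y N c : ℕ}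
    (hD : ∀ p ∈ D, p.Prime ∧ Y ≤ p ∧ p ≤ 2 * Y) (hN : N < Y ^ 2)
    (hc : ∀ p ∈ D, c + 1 ≤ (Cl N a p).card) :
    c * ∑ z ∈ Icc 1 N, ((Dn D a z).card * (Dn D a z).card - (Dn D a z).card)
      ≤ ∑ n ∈ Icc 1 N, ∑ q ∈ D \ Dn D a n, (An D a N n q).card := by
  classical
  have e1 : ∑ n ∈ Icc 1 N, ∑ q ∈ D \ Dn D a n, (An D a N n q).card
      = ((Icc 1 N).sigma fun n => (D \ Dn D a n).sigma fun q => An D a N n q).card := by
    rw [card_sigma]
    refine sum_congr rfl fun n _ => ?_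
    rw [card_sigma]
  have e2 : c * ∑ z ∈ Icc 1 N, ((Dn D a z).card * (Dn D a z).card - (Dn D a z).card)
      ≤ ((Icc 1 N).sigma fun z => ((Dn D a z).offDiag).sigma
          fun pq => (Cl N a pq.1).erase z).card := by
    rw [card_sigma, mul_sum]
    refine sum_le_sum fun z hz => ?_
    rw [card_sigma, ← offDiag_card, mul_comm, ← smul_eq_mul]
    refine card_nsmul_le_sum _ _ _ fun pq hpq => ?_
    rw [mem_offDiag] at hpq
    have h1 : pq.1 ∈ D ∧ (z : ZMod pq.1) = a pq.1 := by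
      have := hpq.1
      rwa [Dn, mem_filter] at this
    have hzC : z ∈ Cl N a pq.1 := by
      rw [Cl, mem_filter]
      exact ⟨hz, h1.2⟩
    rw [card_erase_of_mem hzC]
    have := hc _ h1.1
    omega
  rw [e1]
  refine e2.trans ?_
  refine card_le_card_of_injOn (fun x => ⟨x.2.2, ⟨x.2.1.2, x.2.1.1⟩⟩) ?_ ?_
  · rintro ⟨z, ⟨⟨p, q⟩, n⟩⟩ hx
    simp only [coe_sigma, Set.mem_sigma_iff, mem_coe, mem_offDiag, Dn, mem_filter, mem_erase, Cl,
      mem_sdiff, An, ne_eq] at hx ⊢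
    obtain ⟨hz, ⟨⟨hpD, hpz⟩, ⟨hqD, hqz⟩, hpq⟩, hnz, hn, hnp⟩ := hx
    refine ⟨hn, ⟨hqD, ?_⟩, ⟨⟨hpD, hnp⟩, ⟨z, hz, hpz, hqz⟩⟩⟩
    rintro ⟨_, hnq⟩
    exact hnz (class_unique (hD p hpD).1 (hD q hqD).1 hpq (hD p hpD).2.1 (hD q hqD).2.1 hN hn hz
      (by rw [hnp, hpz]) (by rw [hnq, hqz]))
  · rintro ⟨z, ⟨⟨p, q⟩, n⟩⟩ hx ⟨z', ⟨⟨p', q'⟩, n'⟩⟩ hx' heq
    simp only [Sigma.mk.injEq, heq_eq_eq] at heq
    obtain ⟨rfl, rfl, rfl⟩ := heq
    simp only [coe_sigma, Set.mem_sigma_iff, mem_coe, mem_offDiag, Dn, mem_filter, mem_erase, Cl,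
      ne_eq] at hx hx'
    have : z = z' := class_unique (hD p hx.2.1.1.1).1 (hD q hx.2.1.2.1.1).1 hx.2.1.2.2
      (hD p hx.2.1.1.1).2.1 (hD q hx.2.1.2.1.1).2.1 hN hx.1 hx'.1
      (by rw [hx.2.1.1.2, hx'.2.1.1.2]) (by rw [hx.2.1.2.1.2, hx'.2.1.2.1.2])
    subst this
    rfl

end Pool.Agent.H170R2.PC
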