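import Mathlib

/-!
Definitions: covering the integers of `[1, N]` by one residue class for each prime
`N^α ≤ p < 2 N^α`.
-/

namespace Pool.Agent.H170R2.PC

/-- `p` is a prime with `N^α ≤ p < 2 N^α`. -/
def InRange (α : ℝ) (N p : ℕ) : Prop :=
  p.Prime ∧ (N : ℝ) ^ α ≤ (p : ℝ) ∧ (p : ℝ) < 2 * (N : ℝ) ^ α

/-- The number `S_a(N)` of integers `1 ≤ n ≤ N` lying in the chosen class `a p` modulo `p` for at
least one prime `p` with `N^α ≤ p < 2 N^α`.  (Only the values of the choice `a` at these primes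
matter.) -/
noncomputable def coveredCount (α : ℝ) (N : ℕ) (a : (p : ℕ) → ZMod p) : ℕ :=
  Set.ncard {n : ℕ | 1 ≤ n ∧ n ≤ N ∧ ∃ p : ℕ, InRange α N p ∧ (n : ZMod p) = a p}

/-- The uniform lower bound `S_a(N) ≥ N^{c - o(1)}` for the exponent `α`: for every `ε > 0`, for
all large `N` and every choice `a` of residue classes, `S_a(N) ≥ N^(c - ε)`. -/
def LowerExponent (α c : ℝ) : Prop :=
  ∀ ε : ℝ, 0 < ε → ∃ N₀ : ℕ, ∀ N : ℕ, N₀ ≤ N → ∀ a : (p : ℕ) → ZMod p,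
    (N : ℝ) ^ (c - ε) ≤ (coveredCount α N a : ℝ)

end Pool.Agent.H170R2.PC
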