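import Mathlib

/-!
Additive energy of reciprocals of primes: `num T T'` is the numerator of
`∑_{p ∈ T} 1/p - ∑_{p ∈ T'} 1/p` over the common denominator `∏_{p ∈ T ∪ T'} p`.
-/

open Finset

namespace Pool.Agent.H170R2.PC

/-- numerator of `∑_{T} 1/p - ∑_{T'} 1/p` over the denominator `∏_{T ∪ T'} p` -/
def num (T T' : Finset ℕ) : ℤ :=
  ∑ p ∈ T, ∏ x ∈ (T ∪ T').erase p, (x : ℤ) - ∑ p ∈ T', ∏ x ∈ (T ∪ T').erase p, (x : ℤ)

lemma num_swap (T T' : Finset ℕ) : num T' T = - num T T' := by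
  unfold num
  rw [union_comm T' T]
  ring

lemma num_ne_zero_aux {T T' : Finset ℕ} (hT : ∀ p ∈ T, p.Prime) (hT' : ∀ p ∈ T', p.Prime)
    {p : ℕ} (hp : p ∈ T) (hp' : p ∉ T') : num T T' ≠ 0 := by
  intro h
  have hpp : Prime (p : ℤ) := Nat.prime_iff_prime_int.mp (hT p hp)
  have hU : ∀ x ∈ T ∪ T', x.Prime := by
    intro x hx
    rcases mem_union.mp hx with h | h
    · exact hT x h
    · exact hT' x h
  have hdvd : ∀ y ≠ p, (p : ℤ) ∣ ∏ x ∈ (T ∪ T').erase y, (x : ℤ) := by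
    intro y hy
    exact dvd_prod_of_mem (fun x : ℕ => (x : ℤ)) (mem_erase.mpr ⟨hy.symm, mem_union_left _ hp⟩)
  have h1 : (p : ℤ) ∣ ∑ y ∈ T.erase p, ∏ x ∈ (T ∪ T').erase y, (x : ℤ) :=
    dvd_sum fun y hy => hdvd y (ne_of_mem_erase hy)
  have h2 : (p : ℤ) ∣ ∑ y ∈ T', ∏ x ∈ (T ∪ T').erase y, (x : ℤ) :=
    dvd_sum fun y hy => hdvd y (fun e => hp' (e ▸ hy))
  have h3 : (p : ℤ) ∣ ∏ x ∈ (T ∪ T').erase p, (x : ℤ) := by
    unfold num at h
    rw [← add_sum_erase T _ hp] at h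
    have h4 : ∏ x ∈ (T ∪ T').erase p, (x : ℤ)
        = ∑ y ∈ T', ∏ x ∈ (T ∪ T').erase y, (x : ℤ)
          - ∑ y ∈ T.erase p, ∏ x ∈ (T ∪ T').erase y, (x : ℤ) := by linarith
    rw [h4]
    exact dvd_sub h2 h1
  obtain ⟨x, hx, hxd⟩ := (Prime.dvd_finsetProd_iff hpp _).mp h3
  have hx' := mem_erase.mp hx
  have hxp := hU x hx'.2
  have : p ∣ x := by exact_mod_cast hxd
  exact hx'.1 ((Nat.prime_dvd_prime_iff_eq (hT p hp) hxp).mp this).symm

lemma num_ne_zero {T T' : Finset ℕ} (hT : ∀ p ∈ T, p.Prime) (hT' : ∀ p ∈ T', p.Prime)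
    (h : T ≠ T') : num T T' ≠ 0 := by
  by_cases h1 : T ⊆ T'
  · have h2 : ¬ T' ⊆ T := fun h2 => h (Subset.antisymm h1 h2)
    obtain ⟨p, hp, hp'⟩ := not_subset.mp h2
    have := num_ne_zero_aux hT' hT hp hp'
    rw [num_swap] at this
    simpa using this
  · obtain ⟨p, hp, hp'⟩ := not_subset.mp h1
    exact num_ne_zero_aux hT hT' hp hp'

/-- the key congruence -/
lemma dvd_num {q : ℕ} (hq : q.Prime) {c : ZMod q} (hc : c ≠ 0) {T T' : Finset ℕ} {k : ℕ → ℤ}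
    (hk : ∀ p ∈ T ∪ T', (k p : ZMod q) * (p : ZMod q) = c)
    (hs : ∑ p ∈ T, k p = ∑ p ∈ T', k p) : (q : ℤ) ∣ num T T' := by
  have : Fact q.Prime := ⟨hq⟩
  rw [← ZMod.intCast_zmod_eq_zero_iff_dvd]
  have hkey : ∀ p ∈ T ∪ T', c * ((∏ x ∈ (T ∪ T').erase p, (x : ℤ) : ℤ) : ZMod q)
      = (k p : ZMod q) * ∏ x ∈ T ∪ T', (x : ZMod q) := by
    intro p hp
    rw [← mul_prod_erase (T ∪ T') (fun x => (x : ZMod q)) hp, ← hk p hp]
    push_cast
    ring
  have h1 : c * ((num T T' : ℤ) : ZMod q) = 0 := by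
    unfold num
    push_cast
    rw [mul_sub, mul_sum, mul_sum]
    have e1 : ∑ p ∈ T, c * ∏ x ∈ (T ∪ T').erase p, (x : ZMod q)
        = (∑ p ∈ T, (k p : ZMod q)) * ∏ x ∈ T ∪ T', (x : ZMod q) := by
      rw [sum_mul]
      refine sum_congr rfl fun p hp => ?_
      have := hkey p (mem_union_left _ hp)
      push_cast at this
      exact this
    have e2 : ∑ p ∈ T', c * ∏ x ∈ (T ∪ T').erase p, (x : ZMod q)
        = (∑ p ∈ T', (k p : ZMod q)) * ∏ x ∈ T ∪ T', (x : ZMod q) := by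
      rw [sum_mul]
      refine sum_congr rfl fun p hp => ?_
      have := hkey p (mem_union_right _ hp)
      push_cast at this
      exact this
    rw [e1, e2, ← sub_mul]
    have e3 : (∑ p ∈ T, (k p : ZMod q)) = ∑ p ∈ T', (k p : ZMod q) := by
      have := congrArg (fun z : ℤ => (z : ZMod q)) hs
      simpa using this
    rw [e3, sub_self, zero_mul]
  exact (mul_eq_zero.mp h1).resolve_left hc

lemma abs_num_le {T T' : Finset ℕ} {h M : ℕ} (hM : 1 ≤ M) (hh : 1 ≤ h)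
    (hT : T.card = h) (hT' : T'.card = h)
    (hTM : ∀ p ∈ T, p ≤ M) (hTM' : ∀ p ∈ T', p ≤ M) :
    |num T T'| ≤ h * (M : ℤ) ^ (2 * h - 1) := by
  have hprod : ∀ p ∈ T ∪ T', ∏ x ∈ (T ∪ T').erase p, (x : ℤ) ≤ (M : ℤ) ^ (2 * h - 1) := by
    intro p hp
    have h1 : ∏ x ∈ (T ∪ T').erase p, (x : ℤ) ≤ ∏ x ∈ (T ∪ T').erase p, (M : ℤ) := by
      refine prod_le_prod (fun x _ => by positivity) fun x hx => ?_
      have := mem_of_mem_erase hx
      rcases mem_union.mp this with h | h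
      · exact_mod_cast hTM x h
      · exact_mod_cast hTM' x h
    refine h1.trans ?_
    rw [prod_const]
    refine pow_le_pow_right₀ (by exact_mod_cast hM) ?_
    have := card_erase_of_mem hp
    have h2 := card_union_le T T'
    omega
  have h0 : ∀ U ⊆ T ∪ T', U.card = h → 0 ≤ ∑ p ∈ U, ∏ x ∈ (T ∪ T').erase p, (x : ℤ) ∧
      ∑ p ∈ U, ∏ x ∈ (T ∪ T').erase p, (x : ℤ) ≤ h * (M : ℤ) ^ (2 * h - 1) := by
    intro U hU hUc
    refine ⟨sum_nonneg fun p _ => prod_nonneg fun x _ => by positivity, ?_⟩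
    refine (sum_le_card_nsmul U _ _ fun p hp => hprod p (hU hp)).trans ?_
    rw [hUc, nsmul_eq_mul]
  have ha := h0 T subset_union_left hT
  have hb := h0 T' subset_union_right hT'
  unfold num
  rw [abs_le]
  constructor <;> linarith [ha.1, ha.2, hb.1, hb.2]

/-- few primes of the dyadic range divide the numerator -/
lemma card_dvd_num_le {D : Finset ℕ} {Y h : ℕ} (hD : ∀ p ∈ D, p.Prime ∧ Y ≤ p ∧ p ≤ 2 * Y)
    (hh : 1 ≤ h) (hY : h * 2 ^ (2 * h - 1) < Y) {T T' : Finset ℕ}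
    (hT : T ∈ powersetCard h D) (hT' : T' ∈ powersetCard h D) (hne : T ≠ T') :
    (D.filter fun q : ℕ => (q : ℤ) ∣ num T T').card ≤ 2 * h - 1 := by
  rw [mem_powersetCard] at hT hT'
  by_contra hcon
  push Not at hcon
  obtain ⟨E, hE, hEc⟩ := exists_subset_card_eq (s := D.filter fun q : ℕ => (q : ℤ) ∣ num T T')
    (n := 2 * h) (by omega)
  have hne0 : num T T' ≠ 0 := num_ne_zero (fun p hp => (hD p (hT.1 hp)).1)
    (fun p hp => (hD p (hT'.1 hp)).1) hne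
  have hdv : (∏ q ∈ E, q) ∣ (num T T').natAbs := by
    refine prod_primes_dvd _ (fun q hq => ?_) fun q hq => ?_
    · exact (hD q (mem_filter.mp (hE hq)).1).1.prime
    · exact Int.natCast_dvd.mp (mem_filter.mp (hE hq)).2
  have h1 : ∏ q ∈ E, q ≤ (num T T').natAbs :=
    Nat.le_of_dvd (Int.natAbs_pos.mpr hne0) hdv
  have h2 : Y ^ (2 * h) ≤ ∏ q ∈ E, q := by
    rw [← hEc, ← prod_const]
    exact prod_le_prod' fun q hq => (hD q (mem_filter.mp (hE hq)).1).2.1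
  have h3 := abs_num_le (M := 2 * Y) (by omega) hh hT.2 hT'.2
    (fun p hp => (hD p (hT.1 hp)).2.2) (fun p hp => (hD p (hT'.1 hp)).2.2)
  have h4 : ((num T T').natAbs : ℤ) ≤ h * ((2 * Y : ℕ) : ℤ) ^ (2 * h - 1) := by
    rw [Int.natCast_natAbs]
    exact h3
  have h5 : (num T T').natAbs ≤ h * (2 * Y) ^ (2 * h - 1) := by exact_mod_cast h4
  have h6 : Y ^ (2 * h) ≤ h * (2 * Y) ^ (2 * h - 1) := h2.trans (h1.trans h5)
  have h7 : Y ^ (2 * h) = Y * Y ^ (2 * h - 1) := by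
    rw [← pow_succ']
    congr 1
    omega
  rw [h7, mul_pow, ← mul_assoc] at h6
  have h8 : 0 < Y ^ (2 * h - 1) := pow_pos (by omega) _
  have h9 : Y ≤ h * 2 ^ (2 * h - 1) := Nat.le_of_mul_le_mul_right h6 h8
  omega

end Pool.Agent.H170R2.PC
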