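import Pool.Agent.H170R2.PC.Count

/-!
The finite form of the bush inequality.
-/

open Finset

namespace Pool.Agent.H170R2.PC

open Classical in
/-- the integers of `[1, N]` covered by the chosen classes modulo the primes of `D` -/
noncomputable def Cov (D : Finset ℕ) (a : (p : ℕ) → ZMod p) (N : ℕ) : Finset ℕ :=
  (Icc 1 N).filter fun n => ∃ p ∈ D, (n : ZMod p) = a p

lemma sum_card_Dn (D : Finset ℕ) (a : (p : ℕ) → ZMod p) (N : ℕ) :
    ∑ n ∈ Icc 1 N, (Dn D a n).card = ∑ p ∈ D, (Cl N a p).card := by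
  classical
  simp only [Dn, Cl, card_filter]
  exact sum_comm

lemma Dn_eq_empty {D : Finset ℕ} {a : (p : ℕ) → ZMod p} {N n : ℕ} (hn : n ∈ Icc 1 N)
    (h : n ∉ Cov D a N) : Dn D a n = ∅ := by
  classical
  rw [Dn, filter_eq_empty_iff]
  intro p hp hpn
  exact h (by rw [Cov, mem_filter]; exact ⟨hn, p, hp, hpn⟩)

lemma final_real {c d s I b E : ℝ} (hc : 1 ≤ c) (hd : 1 ≤ d) (hI : c * d ≤ I)
    (hmain : c * I ^ 2 ≤ c * s * I + s ^ 2 * d * b + s * E * I) :
    c * d ≤ 3 * s ∨ c ^ 3 * d ≤ 3 * b * s ^ 2 ∨ c ^ 2 * d ≤ 3 * s * E := by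
  by_contra hcon
  push Not at hcon
  obtain ⟨m1, m2, m3⟩ := hcon
  have hIpos : 0 < I := lt_of_lt_of_le (by positivity) hI
  have t1 : 3 * (c * s * I) < c * I ^ 2 := by
    have : 3 * s < I := lt_of_lt_of_le m1 hI
    have h1 : c * I * (3 * s) < c * I * I :=
      mul_lt_mul_of_pos_left this (by positivity)
    nlinarith
  have t2 : 3 * (s ^ 2 * d * b) < c * I ^ 2 := by
    have h1 : (c * d) ^ 2 ≤ I ^ 2 := pow_le_pow_left₀ (by positivity) hI 2
    have h2 : 3 * b * s ^ 2 * d < c ^ 3 * d * d :=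
      mul_lt_mul_of_pos_right m2 (by positivity)
    have h3 : c * (c * d) ^ 2 ≤ c * I ^ 2 := mul_le_mul_of_nonneg_left h1 (by positivity)
    nlinarith
  have t3 : 3 * (s * E * I) < c * I ^ 2 := by
    have h1 : c * (c * d) ≤ c * I := mul_le_mul_of_nonneg_left hI (by positivity)
    have h2 : 3 * s * E < c * I := by nlinarith
    have h3 : 3 * s * E * I < c * I * I := mul_lt_mul_of_pos_right h2 hIpos
    nlinarith
  linarith

theorem bush {D : Finset ℕ} {a : (p : ℕ) → ZMod p} {Y N h c b : ℕ}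
    (hD : ∀ p ∈ D, p.Prime ∧ Y ≤ p ∧ p ≤ 2 * Y) (hh : 1 ≤ h)
    (hY : h * 2 ^ (2 * h - 1) < Y) (hN : N < Y ^ 2)
    (hc : ∀ p ∈ D, c + 1 ≤ (Cl N a p).card) (hb : 2 * h ≤ b)
    (hb2 : 2 ^ h * h.factorial * (2 * (2 * (h * (N / Y)) + 1)) ≤ b ^ h) :
    c * D.card ≤ 3 * (Cov D a N).card ∨ c ^ 3 * D.card ≤ 3 * b * (Cov D a N).card ^ 2 ∨
      c ^ (4 * h) * D.card ≤ (3 * (Cov D a N).card) ^ (2 * h) *
        (4 ^ h * (2 * (2 * (h * (N / Y)) + 1)) * (2 * h - 1)) := by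
  classical
  rcases Nat.eq_zero_or_pos D.card with hd0 | hd0
  · left; rw [hd0]; omega
  rcases Nat.eq_zero_or_pos c with hc0 | hc0
  · left; rw [hc0]; omega
  set C0 := 4 ^ h * (2 * (2 * (h * (N / Y)) + 1)) * (2 * h - 1) with hC0
  set S := Cov D a N with hS
  set r : ℕ → ℕ := fun n => (Dn D a n).card with hr
  set W : ℕ → ℕ := fun n => ∑ q ∈ D \ Dn D a n, (An D a N n q).card with hW
  have hSI : S ⊆ Icc 1 N := filter_subset _ _
  -- the real number E
  set E : ℝ := ((D.card ^ (2 * h - 1) * C0 : ℕ) : ℝ) ^ (((2 * h : ℕ) : ℝ)⁻¹) with hE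
  have hE0 : 0 ≤ E := Real.rpow_nonneg (Nat.cast_nonneg _) _
  have hEp : E ^ (2 * h) = ((D.card ^ (2 * h - 1) * C0 : ℕ) : ℝ) :=
    Real.rpow_inv_natCast_pow (Nat.cast_nonneg _) (by omega)
  have hWn : ∀ n ∈ Icc 1 N, (W n : ℝ) ≤ D.card * b + E * r n := by
    intro n hn
    have hes := energy_sum (a := a) (n := n) hD hh hY hn hb hb2
    set Q := (D \ Dn D a n).filter fun q => b ≤ (An D a N n q).card with hQ
    have h1 : ((∑ q ∈ Q, (An D a N n q).card : ℕ) : ℝ) ≤ E * r n := by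
      refine le_of_pow_le_pow_left₀ (n := 2 * h) (by omega) (by positivity) ?_
      rw [mul_pow, hEp]
      have : ((∑ q ∈ Q, (An D a N n q).card) ^ (2 * h) : ℕ)
          ≤ D.card ^ (2 * h - 1) * C0 * r n ^ (2 * h) := by
        refine hes.trans (le_of_eq ?_)
        rw [hC0, hr]
        ring
      exact_mod_cast this
    have h2 : W n ≤ D.card * b + ∑ q ∈ Q, (An D a N n q).card := by
      rw [hW]
      dsimp only
      rw [← sum_filter_add_sum_filter_not (D \ Dn D a n) (fun q => b ≤ (An D a N n q).card),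
        add_comm]
      refine Nat.add_le_add_right ?_ _
      refine (sum_le_card_nsmul _ _ b fun q hq => ?_).trans ?_
      · have := (mem_filter.mp hq).2
        omega
      · rw [smul_eq_mul]
        refine Nat.mul_le_mul_right _ (card_le_card ?_)
        exact (filter_subset _ _).trans sdiff_subset
    have h3 : (W n : ℝ) ≤ D.card * b + ((∑ q ∈ Q, (An D a N n q).card : ℕ) : ℝ) := by
      exact_mod_cast h2
    linarith
  have hW0 : ∀ n ∈ Icc 1 N, n ∉ S → W n = 0 := by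
    intro n hn hnS
    have h0 := Dn_eq_empty hn hnS
    rw [hW]
    refine sum_eq_zero fun q _ => ?_
    rw [An, h0]
    simp
  have hr0 : ∀ n ∈ Icc 1 N, n ∉ S → r n = 0 := by
    intro n hn hnS
    rw [hr]
    dsimp only
    rw [Dn_eq_empty hn hnS]
    simp
  set I := ∑ n ∈ Icc 1 N, r n with hI
  have hIS : I = ∑ n ∈ S, r n := (sum_subset hSI hr0).symm
  have hIc : c * D.card ≤ I := by
    rw [hI, hr, sum_card_Dn, mul_comm, ← smul_eq_mul]
    exact card_nsmul_le_sum _ _ _ fun p hp => by have := hc p hp; omega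
  have hsumW : ((∑ n ∈ Icc 1 N, W n : ℕ) : ℝ) ≤ S.card * (D.card * b) + E * I := by
    rw [← sum_subset hSI hW0, hIS]
    push_cast
    rw [mul_sum, ← nsmul_eq_mul, ← sum_const, ← sum_add_distrib]
    exact sum_le_sum fun n hn => hWn n (hSI hn)
  have hdc := double_count (a := a) hD hN hc
  have hsq : I ^ 2 ≤ S.card * ∑ n ∈ S, r n ^ 2 := by
    rw [hIS]
    exact sq_sum_le_card_mul_sum_sq
  have hsqI : ∑ n ∈ S, r n ^ 2 ≤ ∑ n ∈ Icc 1 N, (r n * r n - r n) + I := by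
    rw [hI, ← sum_add_distrib]
    refine (sum_le_sum_of_subset hSI).trans (sum_le_sum fun n _ => ?_)
    rw [sq]
    omega
  -- real form
  have hR1 : (c : ℝ) * ((∑ n ∈ Icc 1 N, (r n * r n - r n) : ℕ) : ℝ)
      ≤ S.card * (D.card * b) + E * I := by
    refine le_trans ?_ hsumW
    exact_mod_cast hdc
  have hR2 : (I : ℝ) ^ 2 ≤ S.card * (((∑ n ∈ Icc 1 N, (r n * r n - r n) : ℕ) : ℝ) + I) := by
    have : I ^ 2 ≤ S.card * (∑ n ∈ Icc 1 N, (r n * r n - r n) + I) :=
      hsq.trans (Nat.mul_le_mul_left _ hsqI)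
    exact_mod_cast this
  generalize ((∑ n ∈ Icc 1 N, (r n * r n - r n) : ℕ) : ℝ) = R at hR1 hR2
  have hcI : (c : ℝ) * D.card ≤ I := by exact_mod_cast hIc
  have hcR : (1 : ℝ) ≤ c := by exact_mod_cast hc0
  have hdR : (1 : ℝ) ≤ D.card := by exact_mod_cast hd0
  have hIpos : (0 : ℝ) < I := lt_of_lt_of_le (by positivity) hcI
  have hs0 : (0 : ℝ) ≤ S.card := Nat.cast_nonneg _
  have hb0 : (0 : ℝ) ≤ b := Nat.cast_nonneg _
  have hmain : (c : ℝ) * I ^ 2 ≤ c * S.card * I + S.card ^ 2 * D.card * b + S.card * E * I := by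
    have e1 : (c : ℝ) * I ^ 2 ≤ c * (S.card * (R + I)) := mul_le_mul_of_nonneg_left hR2 (by positivity)
    have e2 : (S.card : ℝ) * (c * R) ≤ S.card * (S.card * (D.card * b) + E * I) :=
      mul_le_mul_of_nonneg_left hR1 hs0
    nlinarith
  have hfin := final_real hcR hdR hcI hmain
  rcases hfin with h1 | h1 | h1
  · left; exact_mod_cast h1
  · right; left; exact_mod_cast h1
  · right; right
    have h2 : (c ^ 2 * D.card : ℝ) ^ (2 * h) ≤ (3 * S.card * E) ^ (2 * h) :=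
      pow_le_pow_left₀ (by positivity) h1 _
    rw [mul_pow (3 * (S.card : ℝ)) E, hEp] at h2
    have h3 : (c ^ 2 * D.card) ^ (2 * h) ≤ (3 * S.card) ^ (2 * h) * (D.card ^ (2 * h - 1) * C0) := by
      exact_mod_cast h2
    have e2 : (c ^ 2 * D.card) ^ (2 * h) = (c ^ (4 * h) * D.card) * D.card ^ (2 * h - 1) := by
      rw [mul_pow, ← pow_mul, mul_assoc, ← pow_succ']
      congr 2
      · ring
      · omega
    have e3 : (3 * S.card) ^ (2 * h) * (D.card ^ (2 * h - 1) * C0)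
        = ((3 * S.card) ^ (2 * h) * C0) * D.card ^ (2 * h - 1) := by ring
    rw [e2, e3] at h3
    exact Nat.le_of_mul_le_mul_right h3 (pow_pos hd0 _)

end Pool.Agent.H170R2.PC
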